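import Pool.Agent.Y120.R.Main

/-!
# Coefficients in a vector space and in a number field
-/

set_option autoImplicit false

open PowerSeries Pool.Agent.Y113 Pool.Agent.Y120.GF Pool.Agent.Y120.GH

namespace Pool.Agent.Y120.R

section
variable {k : ℕ} {r n : Fin k → ℕ} {h : ∀ i, Fin (r i) → ℚ⟦X⟧}

/-- the data of a family which are needed -/
def Fam (δ : ℕ) {r : ℕ} (h : Fin r → ℚ⟦X⟧) : Prop :=
  (∃ C : ℝ, ∀ j m, |((coeff m (h j) : ℚ) : ℝ)| ≤ C ^ (m + 1)) ∧
  ∃ (B : Finset (Fin δ → Option (Fin r))) (a : Polynomial ℤ) (M : (Fin δ → Option (Fin r)) → B → Polynomial ℤ),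
    a ≠ 0 ∧ (∀ b, ps a * yw h b = ∑ β, ps (M b β) * yw h β.1) ∧ One (XF δ fun β : B => yw h β.1)

/-- relations with coefficients in a vector space are specialisations of functional relations with complex
coefficients -/
theorem relX (d e D : ℕ) (hF : ∀ i, Fam (d * e) (h i)) :
    ∃ c C : ℝ, 0 < c ∧ 0 ≤ C ∧ ∀ (q : ∀ i, Fin (n i) → MvPolynomial (Option (Fin (r i))) ℂ), (∀ i j, (q i j).totalDegree ≤ e) →
      ∀ (V : Submodule ℚ ℂ) [Module.Finite ℚ V], Module.finrank ℚ V ≤ D →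
      ∀ (x : Fin k → ℕ) (N : ℕ), 1 ≤ N → ∀ S : Finset (Fin k → ℕ),
      (∀ t ∈ S, (∀ i, x i < t i ∧ t i ≤ x i + N) ∧ ∃ F : MvPolynomial (Σ i, Fin (n i)) ℂ, F.totalDegree ≤ d ∧
        (∀ s, F.coeff s ∈ V) ∧ MvPolynomial.eval (pv q h fun i => (t i : ℝ)) F = 0 ∧
        ¬ ∃ R : MvPolynomial (Σ i, Fin (n i)) (MvPolynomial (Fin k) ℂ), R.totalDegree ≤ d ∧ Fr q h (RingHom.id ℂ) R ∧
          MvPolynomial.map (MvPolynomial.eval fun i => 1 / (t i : ℂ)) R = F) →
      (S.card : ℝ) ≤ C * (N : ℝ) ^ (k - 1) * ∑ i, (1 + N / ((x i : ℝ) + N) ^ c) := by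
  classical
  choose hsz B a M ha hM hOne using hF
  obtain ⟨c, C, hc, hC, h1⟩ := relG (n := n) D ha hM hOne hsz
  refine ⟨c, C, hc, hC, ?_⟩
  intro q hq V _ hV x N hN S hS
  exact h1 q hq ℂ (RingHom.id ℂ) Unit (fun _ => 1) (fun j s _ => (Z q j).coeff s) (fun j s => by simp) (fun c hc => by
    funext l
    simpa using hc) V hV x N hN S hS

/-- relations over a number field are specialisations of functional relations over the number field -/
theorem relY (d e D : ℕ) (hF : ∀ i, Fam (d * e) (h i)) :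
    ∃ c C : ℝ, 0 < c ∧ 0 ≤ C ∧ ∀ (q : ∀ i, Fin (n i) → MvPolynomial (Option (Fin (r i))) ℂ), (∀ i j, (q i j).totalDegree ≤ e) →
      ∀ (K : IntermediateField ℚ ℂ) [FiniteDimensional ℚ K], Module.finrank ℚ K ≤ D →
      ∀ (x : Fin k → ℕ) (N : ℕ), 1 ≤ N → ∀ S : Finset (Fin k → ℕ),
      (∀ t ∈ S, (∀ i, x i < t i ∧ t i ≤ x i + N) ∧ ∃ F : MvPolynomial (Σ i, Fin (n i)) K, F.totalDegree ≤ d ∧
        MvPolynomial.eval₂ (algebraMap K ℂ) (pv q h fun i => (t i : ℝ)) F = 0 ∧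
        ¬ ∃ R : MvPolynomial (Σ i, Fin (n i)) (MvPolynomial (Fin k) K), R.totalDegree ≤ d ∧ Fr q h (algebraMap K ℂ) R ∧
          MvPolynomial.map (MvPolynomial.eval fun i => 1 / (t i : K)) R = F) →
      (S.card : ℝ) ≤ C * (N : ℝ) ^ (k - 1) * ∑ i, (1 + N / ((x i : ℝ) + N) ^ c) := by
  classical
  choose hsz B a M ha hM hOne using hF
  obtain ⟨c, C, hc, hC, h1⟩ := relG (n := n) D ha hM hOne hsz
  refine ⟨c, C, hc, hC, ?_⟩
  intro q hq K _ hK x N hN S hS
  -- a basis of the space of the coefficients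
  set T : Finset ℂ := insert 0 (Finset.univ.biUnion fun j : Jx (Σ i, Fin (n i)) d => (Z q j).support.image fun s => (Z q j).coeff s) with hT
  have hmem : ∀ (j : Jx (Σ i, Fin (n i)) d) (s : Ex r), (Z q j).coeff s ∈ (T : Set ℂ) := by
    intro j s
    by_cases h0 : (Z q j).coeff s = 0
    · rw [h0]
      exact Finset.mem_coe.2 (Finset.mem_insert_self _ _)
    · refine Finset.mem_coe.2 (Finset.mem_insert_of_mem (Finset.mem_biUnion.2 ⟨j, Finset.mem_univ _, ?_⟩))
      exact Finset.mem_image.2 ⟨s, MvPolynomial.mem_support_iff.2 h0, rfl⟩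
  set W : Submodule K ℂ := Submodule.span K (T : Set ℂ) with hW
  have hWf : Module.Finite K W := Module.Finite.span_of_finite K T.finite_toSet
  set b := Module.finBasis K W with hb
  let g : Jx (Σ i, Fin (n i)) d → Ex r → Fin (Module.finrank K W) → K := fun j s l =>
    b.repr ⟨(Z q j).coeff s, Submodule.subset_span (hmem j s)⟩ l
  have hg : ∀ (j : Jx (Σ i, Fin (n i)) d) (s : Ex r), (Z q j).coeff s = ∑ l, ((b l : W) : ℂ) * algebraMap K ℂ (g j s l) := by
    intro j s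
    have h2 := congrArg (fun u : W => (u : ℂ)) (b.sum_repr ⟨(Z q j).coeff s, Submodule.subset_span (hmem j s)⟩)
    beta_reduce at h2
    refine Eq.trans h2.symm ?_
    rw [Submodule.coe_sum]
    refine Finset.sum_congr rfl fun l _ => ?_
    rw [Submodule.coe_smul, Algebra.smul_def, mul_comm]
  have hw : ∀ c : Fin (Module.finrank K W) → K, ∑ l, ((b l : W) : ℂ) * algebraMap K ℂ (c l) = 0 → c = 0 := by
    intro c hc
    have h2 : ∑ l, c l • b l = 0 := by
      apply Subtype.ext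
      rw [Submodule.coe_sum, Submodule.coe_zero, ← hc]
      refine Finset.sum_congr rfl fun l _ => ?_
      rw [Submodule.coe_smul, Algebra.smul_def, mul_comm]
    have h3 := Fintype.linearIndependent_iff.1 b.linearIndependent c h2
    funext l
    exact h3 l
  let V : Submodule ℚ ℂ := K.toSubmodule
  have hVf : Module.Finite ℚ V := inferInstanceAs (Module.Finite ℚ K)
  refine h1 q hq K (algebraMap K ℂ) (Fin (Module.finrank K W)) (fun l => ((b l : W) : ℂ)) g hg hw V hK x N hN S fun t ht => ?_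
  obtain ⟨hbox, F, hFd, hF0, hFR⟩ := hS t ht
  exact ⟨hbox, F, hFd, fun s => (F.coeff s).2, hF0, hFR⟩

end

end Pool.Agent.Y120.R
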