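import Pool.Agent.Y120.R.Ac

/-!
# Relations at almost all tuples are invariant under the symmetries of the functional relations
-/

set_option autoImplicit false

open PowerSeries Pool.Agent.Y113 Pool.Agent.Y120.GF Pool.Agent.Y120.GH Filter Topology

namespace Pool.Agent.Y120.R

section
variable {k : ℕ} {r : Fin k → ℕ} {ν : Fin k → Type} (h : ∀ i, Fin (r i) → ℚ⟦X⟧)

/-- the values of the period functions, general index types -/
noncomputable def pn (q : ∀ i, ν i → MvPolynomial (Option (Fin (r i))) ℂ) (s : Fin k → ℝ) (v : Σ i, ν i) : ℂ :=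
  MvPolynomial.aeval (p1 (h v.1) (s v.1)) (q v.1 v.2)

/-- functional relations, general index types -/
def Fn (q : ∀ i, ν i → MvPolynomial (Option (Fin (r i))) ℂ) (R : MvPolynomial (Σ i, ν i) (MvPolynomial (Fin k) ℂ)) : Prop :=
  ∃ τ : ℝ, ∀ s : Fin k → ℝ, (∀ i, τ < s i) →
    MvPolynomial.eval₂ (MvPolynomial.eval₂Hom (RingHom.id ℂ) fun i => 1 / (s i : ℂ)) (pn h q s) R = 0

variable {h}

theorem relX' [∀ i, Fintype (ν i)] (d e D : ℕ) (hF : ∀ i, Fam (d * e) (h i)) :
    ∃ c C : ℝ, 0 < c ∧ 0 ≤ C ∧ ∀ (q : ∀ i, ν i → MvPolynomial (Option (Fin (r i))) ℂ), (∀ i j, (q i j).totalDegree ≤ e) →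
      ∀ (V : Submodule ℚ ℂ) [Module.Finite ℚ V], Module.finrank ℚ V ≤ D →
      ∀ (x : Fin k → ℕ) (N : ℕ), 1 ≤ N → ∀ S : Finset (Fin k → ℕ),
      (∀ t ∈ S, (∀ i, x i < t i ∧ t i ≤ x i + N) ∧ ∃ F : MvPolynomial (Σ i, ν i) ℂ, F.totalDegree ≤ d ∧
        (∀ s, F.coeff s ∈ V) ∧ MvPolynomial.eval (pn h q fun i => (t i : ℝ)) F = 0 ∧
        ¬ ∃ R : MvPolynomial (Σ i, ν i) (MvPolynomial (Fin k) ℂ), R.totalDegree ≤ d ∧ Fn h q R ∧
          MvPolynomial.map (MvPolynomial.eval fun i => 1 / (t i : ℂ)) R = F) →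
      (S.card : ℝ) ≤ C * (N : ℝ) ^ (k - 1) * ∑ i, (1 + N / ((x i : ℝ) + N) ^ c) := by
  classical
  obtain ⟨c, C, hc, hC, h1⟩ := relX (n := fun i => Fintype.card (ν i)) d e D hF
  refine ⟨c, C, hc, hC, ?_⟩
  intro q hq V _ hV x N hN S hS
  let ε : ∀ i, ν i ≃ Fin (Fintype.card (ν i)) := fun i => Fintype.equivFin (ν i)
  let q' : ∀ i, Fin (Fintype.card (ν i)) → MvPolynomial (Option (Fin (r i))) ℂ := fun i j => q i ((ε i).symm j)
  let σ : (Σ i, ν i) ≃ (Σ i, Fin (Fintype.card (ν i))) := Equiv.sigmaCongrRight ε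
  have hpv : ∀ s : Fin k → ℝ, pv q' h s ∘ σ = pn h q s := by
    intro s
    funext v
    obtain ⟨i, j⟩ := v
    show MvPolynomial.aeval (vp h s) (pf q' ⟨i, ε i j⟩) = MvPolynomial.aeval (p1 (h i) (s i)) (q i j)
    unfold pf
    rw [MvPolynomial.aeval_rename]
    have h2 : (vp h s ∘ fun o : Option (Fin (r i)) => (⟨i, o⟩ : Σ i, Option (Fin (r i)))) = p1 (h i) (s i) := by
      funext o
      rcases o with _ | l
      · rfl
      · rfl
    show MvPolynomial.aeval (vp h s ∘ fun o : Option (Fin (r i)) => (⟨i, o⟩ : Σ i, Option (Fin (r i)))) (q i ((ε i).symm (ε i j))) = _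
    rw [h2, Equiv.symm_apply_apply]
  refine h1 q' (fun i j => hq i _) V hV x N hN S fun t ht => ?_
  obtain ⟨hbox, F, hFd, hFV, hF0, hFR⟩ := hS t ht
  refine ⟨hbox, MvPolynomial.rename σ F, (MvPolynomial.totalDegree_rename_le _ _).trans hFd, fun s => ?_, ?_, ?_⟩
  · have h2 : s = Finsupp.mapDomain σ (Finsupp.mapDomain σ.symm s) := by
      rw [← Finsupp.mapDomain_comp]
      simp
    rw [h2, MvPolynomial.coeff_rename_mapDomain _ σ.injective]
    exact hFV _
  · rw [MvPolynomial.eval_rename, hpv]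
    exact hF0
  · rintro ⟨R, hRd, ⟨τ, hRτ⟩, hRF⟩
    refine hFR ⟨MvPolynomial.rename σ.symm R, (MvPolynomial.totalDegree_rename_le _ _).trans hRd, ⟨τ, fun s hs => ?_⟩, ?_⟩
    · rw [MvPolynomial.eval₂_rename]
      have h3 : pn h q s ∘ σ.symm = pv q' h s := by
        rw [← hpv]
        funext v
        simp
      rw [h3]
      exact hRτ s hs
    · rw [MvPolynomial.map_rename, hRF, MvPolynomial.rename_rename]
      simp

/-- the functions `q'` satisfy all functional relations of `q` -/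
def Sat {r : ℕ} (h : Fin r → ℚ⟦X⟧) {ν : Type} (q q' : ν → MvPolynomial (Option (Fin r)) ℂ) : Prop :=
  ∀ R : MvPolynomial ν (Polynomial ℂ), (∀ᶠ s : ℝ in atTop, E1 h q R (s : ℂ) = 0) → ∀ᶠ s : ℝ in atTop, E1 h q' R (s : ℂ) = 0

/-- functional relations are preserved -/
theorem fn_sat {C₀ : ℝ} (hC₀ : 0 ≤ C₀) (hh : ∀ i l m, |((coeff m (h i l) : ℚ) : ℝ)| ≤ C₀ ^ (m + 1))
    {q q' : ∀ i, ν i → MvPolynomial (Option (Fin (r i))) ℂ} (hs : ∀ i, Sat (h i) (q i) (q' i))
    {R : MvPolynomial (Σ i, ν i) (MvPolynomial (Fin k) ℂ)} (hR : Fn h q R) {s : Fin k → ℝ} (hsC : ∀ i, C₀ < s i) :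
    MvPolynomial.eval₂ (MvPolynomial.eval₂Hom (RingHom.id ℂ) fun i => 1 / (s i : ℂ)) (pn h q' s) R = 0 := by
  classical
  obtain ⟨τ, hτ⟩ := hR
  let τ' := max τ C₀
  have key : ∀ I : Finset (Fin k), ∀ s : Fin k → ℝ, (∀ i ∈ I, C₀ < s i) → (∀ i ∉ I, τ' < s i) →
      MvPolynomial.eval₂ (MvPolynomial.eval₂Hom (RingHom.id ℂ) fun i => 1 / (s i : ℂ))
        (pn h (fun i => if i ∈ I then q' i else q i) s) R = 0 := by
    intro I
    induction I using Finset.induction_on with
    | empty =>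
      intro s _ h2
      have h3 := hτ s fun i => lt_of_le_of_lt (le_max_left _ _) (h2 i (Finset.notMem_empty i))
      simp only [Finset.notMem_empty, if_false]
      exact h3
    | insert i I hi ih =>
      intro s h1 h2
      let qI : ∀ j, ν j → MvPolynomial (Option (Fin (r j))) ℂ := fun j => if j ∈ I then q' j else q j
      have hqIi : qI i = q i := if_neg hi
      -- the relation in the variables with index `i`
      let κ : MvPolynomial (Fin k) ℂ →+* Polynomial ℂ := MvPolynomial.eval₂Hom Polynomial.C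
        fun j => if j = i then Polynomial.X else Polynomial.C (1 / (s j : ℂ))
      let ψ : (Σ j, ν j) → MvPolynomial (ν i) (Polynomial ℂ) := fun v =>
        if hv : v.1 = i then MvPolynomial.X (hv ▸ v.2) else MvPolynomial.C (Polynomial.C (pn h qI s v))
      let R1 : MvPolynomial (ν i) (Polynomial ℂ) := MvPolynomial.eval₂ (MvPolynomial.C.comp κ) ψ R
      have hE : ∀ (u : ℝ), 0 < u → ∀ p : ν i → MvPolynomial (Option (Fin (r i))) ℂ,
          E1 (h i) p R1 (u : ℂ) = MvPolynomial.eval₂ (MvPolynomial.eval₂Hom (RingHom.id ℂ)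
            fun j => 1 / ((Function.update s i u j : ℝ) : ℂ)) (pn h (Function.update qI i p) (Function.update s i u)) R := by
        intro u hu p
        have e1 : E1 (h i) p R1 (u : ℂ) = MvPolynomial.eval₂Hom (Polynomial.evalRingHom (1 / (u : ℂ)))
            (fun v => MvPolynomial.aeval (c1 (h i) (u : ℂ)) (p v)) R1 := rfl
        rw [e1]
        show MvPolynomial.eval₂Hom _ _ (MvPolynomial.eval₂ (MvPolynomial.C.comp κ) ψ R) = _
        rw [MvPolynomial.hom_eval₂]
        have e2 : (MvPolynomial.eval₂Hom (Polynomial.evalRingHom (1 / (u : ℂ)))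
            (fun v => MvPolynomial.aeval (c1 (h i) (u : ℂ)) (p v))).comp (MvPolynomial.C.comp κ) =
            MvPolynomial.eval₂Hom (RingHom.id ℂ) fun j => 1 / ((Function.update s i u j : ℝ) : ℂ) := by
          refine MvPolynomial.ringHom_ext (fun c => ?_) (fun j => ?_)
          · simp [κ]
          · by_cases hj : j = i
            · subst hj
              simp [κ]
            · simp [κ, hj]
        rw [e2]
        congr 1
        funext v
        obtain ⟨j, x⟩ := v
        by_cases hj : j = i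
        · subst hj
          simp only [ψ, dif_pos, MvPolynomial.coe_eval₂Hom, MvPolynomial.eval₂_X]
          show MvPolynomial.aeval (c1 (h j) (u : ℂ)) (p x) =
            MvPolynomial.aeval (p1 (h j) (Function.update s j u j)) ((Function.update qI j p) j x)
          rw [Function.update_self, Function.update_self, c1_real (h j) hu]
        · simp only [ψ, Function.comp_apply, dif_neg hj, MvPolynomial.coe_eval₂Hom, MvPolynomial.eval₂_C,
            Polynomial.coe_evalRingHom, Polynomial.eval_C]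
          show MvPolynomial.aeval (p1 (h j) (s j)) (qI j x) =
            MvPolynomial.aeval (p1 (h j) (Function.update s i u j)) ((Function.update qI i p) j x)
          rw [Function.update_of_ne hj, Function.update_of_ne hj]
      have hev : ∀ᶠ u : ℝ in atTop, E1 (h i) (q i) R1 (u : ℂ) = 0 := by
        filter_upwards [eventually_gt_atTop (max τ' 0)] with u hu
        rw [hE u (lt_of_le_of_lt (le_max_right _ _) hu), ← hqIi, Function.update_eq_self]
        refine ih _ (fun j hj => ?_) (fun j hj => ?_)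
        · have hne : j ≠ i := fun e => hi (e ▸ hj)
          rw [Function.update_of_ne hne]
          exact h1 j (Finset.mem_insert_of_mem hj)
        · by_cases hne : j = i
          · subst hne
            rw [Function.update_self]
            exact lt_of_le_of_lt (le_max_left _ _) hu
          · rw [Function.update_of_ne hne]
            exact h2 j (by
              rw [Finset.mem_insert]
              tauto)
      have hev' := hs i R1 hev
      have h3 := ac (h i) hC₀ (hh i) (q' i) R1 hev' (h1 i (Finset.mem_insert_self _ _))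
      rw [hE (s i) (lt_of_le_of_lt hC₀ (h1 i (Finset.mem_insert_self _ _))), Function.update_eq_self] at h3
      have h4 : Function.update qI i (q' i) = fun j => if j ∈ insert i I then q' j else q j := by
        funext j
        by_cases hj : j = i
        · subst hj
          rw [Function.update_self, if_pos (Finset.mem_insert_self _ _)]
        · rw [Function.update_of_ne hj]
          show (if j ∈ I then q' j else q j) = _
          simp only [Finset.mem_insert, hj, false_or]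
      rw [h4] at h3
      exact h3
  have h5 := key Finset.univ s (fun i _ => hsC i) fun i hi => absurd (Finset.mem_univ i) hi
  simp only [Finset.mem_univ, if_true] at h5
  exact h5

/-- For almost all tuples all relations are inherited by the functions with the same functional relations. -/
theorem gx [∀ i, Fintype (ν i)] (d e D : ℕ) (hF : ∀ i, Fam (d * e) (h i)) :
    ∃ c C : ℝ, 0 < c ∧ 0 ≤ C ∧ ∀ (q : ∀ i, ν i → MvPolynomial (Option (Fin (r i))) ℂ), (∀ i j, (q i j).totalDegree ≤ e) →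
      ∀ (V : Submodule ℚ ℂ) [Module.Finite ℚ V], Module.finrank ℚ V ≤ D →
      ∀ (x : Fin k → ℕ) (N : ℕ), 1 ≤ N → ∀ S : Finset (Fin k → ℕ),
      (∀ t ∈ S, (∀ i, x i < t i ∧ t i ≤ x i + N) ∧ ∃ F : MvPolynomial (Σ i, ν i) ℂ, F.totalDegree ≤ d ∧
        (∀ s, F.coeff s ∈ V) ∧ MvPolynomial.eval (pn h q fun i => (t i : ℝ)) F = 0 ∧
        ∃ q' : ∀ i, ν i → MvPolynomial (Option (Fin (r i))) ℂ, (∀ i, Sat (h i) (q i) (q' i)) ∧
          MvPolynomial.eval (pn h q' fun i => (t i : ℝ)) F ≠ 0) →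
      (S.card : ℝ) ≤ C * (N : ℝ) ^ (k - 1) * ∑ i, (1 + N / ((x i : ℝ) + N) ^ c) := by
  classical
  obtain ⟨c, C, hc, hC, h1⟩ := relX' (ν := ν) d e D hF
  obtain ⟨w, hw⟩ : ∃ w : ℕ, ∀ i l m, |((coeff m (h i l) : ℚ) : ℝ)| ≤ (w : ℝ) ^ (m + 1) := by
    choose C₁ hC₁ using fun i => (hF i).1
    choose m hm using fun i => exists_nat_ge |C₁ i|
    refine ⟨∑ i, m i, fun i l j => ?_⟩
    refine (hC₁ i l j).trans ?_
    refine (le_abs_self _).trans ?_
    rw [abs_pow]
    refine pow_le_pow_left₀ (abs_nonneg _) ((hm i).trans ?_) _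
    exact_mod_cast Finset.single_le_sum (f := m) (fun _ _ => Nat.zero_le _) (Finset.mem_univ i)
  refine ⟨c, C + (w + 1), hc, by positivity, ?_⟩
  intro q hq V _ hV x N hN S hS
  set S₁ := S.filter fun t => ∃ i, t i ≤ w with hS₁
  set S₂ := S.filter fun t => ¬ ∃ i, t i ≤ w with hS₂
  have hcard : S₁.card + S₂.card = S.card := Finset.card_filter_add_card_filter_not (s := S) (fun t => ∃ i, t i ≤ w)
  have hb₁ : S₁.card ≤ k * (w + 1) * N ^ (k - 1) := small w N x S₁ fun t ht =>
    ⟨(hS t (Finset.mem_filter.1 ht).1).1, (Finset.mem_filter.1 ht).2⟩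
  have hb₂ : (S₂.card : ℝ) ≤ C * (N : ℝ) ^ (k - 1) * ∑ i, (1 + N / ((x i : ℝ) + N) ^ c) := by
    refine h1 q hq V hV x N hN S₂ fun t ht => ?_
    obtain ⟨htS, hbig⟩ := Finset.mem_filter.1 ht
    obtain ⟨hbox, F, hFd, hFV, hF0, q', hq', hne⟩ := hS t htS
    push Not at hbig
    refine ⟨hbox, F, hFd, hFV, hF0, ?_⟩
    rintro ⟨R, hRd, hRf, hRF⟩
    apply hne
    have h2 := fn_sat (h := h) (C₀ := (w : ℝ)) (by positivity) hw hq' hRf (s := fun i => (t i : ℝ)) fun i => by
      exact_mod_cast hbig i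
    rw [← hRF, MvPolynomial.eval_map]
    refine Eq.trans ?_ h2
    congr 1
  have hN1 : (1 : ℝ) ≤ N := by exact_mod_cast hN
  have hk : (k : ℝ) ≤ ∑ i, (1 + (N : ℝ) / ((x i : ℝ) + N) ^ c) := by
    have h1 : ∑ _i : Fin k, (1 : ℝ) ≤ ∑ i, (1 + (N : ℝ) / ((x i : ℝ) + N) ^ c) := by
      refine Finset.sum_le_sum fun i _ => ?_
      have : 0 ≤ (N : ℝ) / ((x i : ℝ) + N) ^ c := by positivity
      linarith
    rw [Finset.sum_const, Finset.card_univ, Fintype.card_fin, nsmul_eq_mul, mul_one] at h1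
    exact h1
  have e1 : (S.card : ℝ) = S₁.card + S₂.card := by exact_mod_cast hcard.symm
  have e2 : (S₁.card : ℝ) ≤ k * (w + 1) * (N : ℝ) ^ (k - 1) := by exact_mod_cast hb₁
  have e4 : (k : ℝ) * (w + 1) * (N : ℝ) ^ (k - 1) ≤ (w + 1) * (N : ℝ) ^ (k - 1) * ∑ i, (1 + (N : ℝ) / ((x i : ℝ) + N) ^ c) := by
    have : (k : ℝ) * (w + 1) * (N : ℝ) ^ (k - 1) = (w + 1) * (N : ℝ) ^ (k - 1) * k := by ring
    rw [this]
    exact mul_le_mul_of_nonneg_left hk (by positivity)
  rw [e1]
  calc (S₁.card : ℝ) + S₂.card ≤ (w + 1) * (N : ℝ) ^ (k - 1) * ∑ i, (1 + (N : ℝ) / ((x i : ℝ) + N) ^ c) +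
        C * (N : ℝ) ^ (k - 1) * ∑ i, (1 + (N : ℝ) / ((x i : ℝ) + N) ^ c) := by linarith
    _ = _ := by ring

end

end Pool.Agent.Y120.R
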