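import Mathlib

/-!
# Lifting vectors in the kernel of a specialised matrix
-/

set_option autoImplicit false

open MvPolynomial

namespace Pool.Agent.Y120.R

section
variable {A : Type} [CommRing A] {I J : Type}

/-- there is a non-vanishing minor of size `ρ` -/
def Mi (M : Matrix I J A) (ρ : ℕ) : Prop := ∃ (e : Fin ρ → I) (f : Fin ρ → J), (M.submatrix e f).det ≠ 0

lemma Mi.le [Fintype J] {M : Matrix I J A} {ρ : ℕ} (h : Mi M ρ) : ρ ≤ Fintype.card J := by
  obtain ⟨e, f, hd⟩ := h
  have hinj : Function.Injective f := by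
    intro a b hab
    by_contra hne
    exact hd (Matrix.det_zero_of_column_eq hne fun i => by rw [Matrix.submatrix_apply, Matrix.submatrix_apply, hab])
  simpa using Fintype.card_le_of_injective f hinj

lemma exists_max [Nontrivial A] [Fintype J] (M : Matrix I J A) : ∃ ρ : ℕ, Mi M ρ ∧ ¬ Mi M (ρ + 1) := by
  classical
  have h : ∃ n, ¬ Mi M n := ⟨Fintype.card J + 1, fun h => by
    have := h.le
    omega⟩
  have h0 : Nat.find h ≠ 0 := by
    intro h1
    have h2 := Nat.find_spec h
    rw [h1] at h2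
    refine h2 ⟨Fin.elim0, Fin.elim0, ?_⟩
    rw [Matrix.det_isEmpty]
    exact one_ne_zero
  refine ⟨Nat.find h - 1, ?_, ?_⟩
  · by_contra h3
    exact Nat.find_min h (by omega) h3
  · rw [Nat.sub_add_cancel (by omega)]
    exact Nat.find_spec h

/-- rows and columns outside a maximal minor -/
lemma schur [IsDomain A] {M : Matrix I J A} {ρ : ℕ} {e : Fin ρ → I} {f : Fin ρ → J} (hd : (M.submatrix e f).det ≠ 0)
    (hmax : ¬ Mi M (ρ + 1)) (i : I) (j : J) :
    (M.submatrix e f).det * M i j = ∑ a, ∑ b, M i (f a) * (M.submatrix e f).adjugate a b * M (e b) j := by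
  classical
  set B := M.submatrix e f with hB
  let F := FractionRing A
  let φ : A →+* F := algebraMap A F
  have hφ : Function.Injective φ := IsFractionRing.injective A F
  have hunit : IsUnit (B.map φ).det := by
    rw [isUnit_iff_ne_zero]
    rw [show (B.map φ).det = φ B.det from (RingHom.map_det φ B).symm]
    intro h0
    rw [← map_zero φ] at h0
    exact hd (hφ h0)
  have hB' : IsUnit (B.map φ) := (Matrix.isUnit_iff_isUnit_det _).2 hunit
  let b : Matrix (Fin ρ) (Fin 1) F := fun b _ => φ (M (e b) j)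
  let c : Matrix (Fin 1) (Fin ρ) F := fun _ a => φ (M i (f a))
  let d : Matrix (Fin 1) (Fin 1) F := fun _ _ => φ (M i j)
  let _ : Invertible (B.map φ) := hB'.invertible
  have h1 : (Matrix.fromBlocks (B.map φ) b c d).det = 0 := by
    have h2 : ((M.submatrix (Sum.elim e (fun _ : Fin 1 => i) ∘ finSumFinEquiv.symm)
        (Sum.elim f (fun _ : Fin 1 => j) ∘ finSumFinEquiv.symm))).det = 0 := by
      by_contra h3
      exact hmax ⟨_, _, h3⟩
    rw [← Matrix.submatrix_submatrix, Matrix.det_submatrix_equiv_self] at h2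
    have h4 : Matrix.fromBlocks (B.map φ) b c d =
        (M.submatrix (Sum.elim e (fun _ : Fin 1 => i)) (Sum.elim f (fun _ : Fin 1 => j))).map φ := by
      ext x y
      rcases x with x | x <;> rcases y with y | y <;> rfl
    rw [h4]
    have h5 := (RingHom.map_det φ (M.submatrix (Sum.elim e (fun _ : Fin 1 => i)) (Sum.elim f (fun _ : Fin 1 => j)))).symm
    refine Eq.trans h5 ?_
    rw [h2, map_zero]
  rw [Matrix.det_fromBlocks₁₁, mul_eq_zero] at h1
  have h6 : (d - c * ⅟(B.map φ) * b).det = 0 := h1.resolve_left hunit.ne_zero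
  rw [Matrix.det_unique, Matrix.sub_apply, sub_eq_zero] at h6
  have h7 : ⅟(B.map φ) = (B.map φ)⁻¹ := Matrix.invOf_eq_nonsing_inv _
  rw [h7, Matrix.inv_def] at h6
  have h8 : φ B.det * φ (M i j) = ∑ a, ∑ b, φ (M i (f a)) * (B.map φ).adjugate a b * φ (M (e b) j) := by
    have h9 : φ (M i j) = (c * (Ring.inverse (B.map φ).det • (B.map φ).adjugate) * b) default default := h6
    rw [h9, Matrix.mul_assoc, Matrix.smul_mul, Matrix.mul_smul, Matrix.smul_apply, smul_eq_mul]
    rw [show φ B.det = (B.map φ).det from RingHom.map_det φ B, ← mul_assoc, Ring.mul_inverse_cancel _ hunit, one_mul]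
    rw [Matrix.mul_apply]
    refine Finset.sum_congr rfl fun a _ => ?_
    rw [Matrix.mul_apply, Finset.mul_sum]
    refine Finset.sum_congr rfl fun b' _ => ?_
    show φ (M i (f a)) * ((B.map φ).adjugate a b' * φ (M (e b') j)) = _
    ring
  apply hφ
  rw [map_mul, h8, map_sum]
  refine Finset.sum_congr rfl fun a _ => ?_
  rw [map_sum]
  refine Finset.sum_congr rfl fun b' _ => ?_
  rw [map_mul, map_mul]
  congr 2
  have h10 : (B.map φ).adjugate = B.adjugate.map φ := (RingHom.map_adjugate φ B).symm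
  rw [h10, Matrix.map_apply]

end

section
variable {k : ℕ} {K : Type} [Field K] {I J : Type} [Fintype J]

lemma det_deg {n d : ℕ} (M : Matrix (Fin n) (Fin n) (MvPolynomial (Fin k) K)) (h : ∀ i j, (M i j).totalDegree ≤ d) :
    M.det.totalDegree ≤ n * d := by
  rw [Matrix.det_apply']
  refine (totalDegree_finsetSum _ _).trans (Finset.sup_le fun σ _ => ?_)
  have h1 : (((Equiv.Perm.sign σ : ℤˣ) : ℤ) : MvPolynomial (Fin k) K).totalDegree = 0 := by
    rw [← map_intCast (C : K →+* MvPolynomial (Fin k) K), totalDegree_C]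
  refine (totalDegree_mul _ _).trans ?_
  rw [h1, zero_add]
  refine (totalDegree_finsetProd _ _).trans ?_
  refine (Finset.sum_le_card_nsmul _ _ d fun i _ => h _ _).trans ?_
  simp

/-- Vectors in the kernel of the specialised matrix lift to the kernel of the matrix. -/
theorem lift (M : Matrix I J (MvPolynomial (Fin k) K)) {d : ℕ} (hdeg : ∀ i j, (M i j).totalDegree ≤ d) :
    ∃ Δ : MvPolynomial (Fin k) K, Δ ≠ 0 ∧ Δ.totalDegree ≤ Fintype.card J * d ∧ ∀ y : Fin k → K, eval y Δ ≠ 0 →
      ∀ v : J → K, (∀ i, ∑ j, eval y (M i j) * v j = 0) →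
      ∃ w : J → MvPolynomial (Fin k) K, (∀ i, ∑ j, M i j * w j = 0) ∧ ∀ j, eval y (w j) = v j := by
  classical
  obtain ⟨ρ, ⟨e, f, hd⟩, hmax⟩ := exists_max M
  refine ⟨(M.submatrix e f).det, hd, ?_, ?_⟩
  · refine (det_deg _ fun i j => hdeg _ _).trans (Nat.mul_le_mul_right _ ?_)
    exact Mi.le ⟨e, f, hd⟩
  intro y hy v hv
  set B := M.submatrix e f with hB
  set Δ := B.det with hΔ
  let u : Fin ρ → MvPolynomial (Fin k) K := fun b => ∑ j, M (e b) j * C (v j)
  let g : Fin ρ → MvPolynomial (Fin k) K := fun a => ∑ b, B.adjugate a b * u b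
  let w₀ : J → MvPolynomial (Fin k) K := fun j => Δ * C (v j) - ∑ a, if f a = j then g a else 0
  have hu : ∀ b, eval y (u b) = 0 := by
    intro b
    show eval y (∑ j, M (e b) j * C (v j)) = 0
    rw [map_sum, ← hv (e b)]
    refine Finset.sum_congr rfl fun j _ => ?_
    rw [map_mul, eval_C]
  have hw₀ : ∀ j, eval y (w₀ j) = eval y Δ * v j := by
    intro j
    show eval y (Δ * C (v j) - ∑ a, if f a = j then g a else 0) = _
    rw [map_sub, map_mul, eval_C, map_sum, sub_eq_self]
    refine Finset.sum_eq_zero fun a _ => ?_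
    split_ifs with h
    · show eval y (∑ b, B.adjugate a b * u b) = 0
      rw [map_sum]
      exact Finset.sum_eq_zero fun b _ => by rw [map_mul, hu, mul_zero]
    · exact map_zero _
  -- the product with an arbitrary row
  have hrow : ∀ i, ∑ j, M i j * w₀ j = Δ * ∑ j, M i j * C (v j) - ∑ a, M i (f a) * g a := by
    intro i
    have h1 : ∀ j, M i j * w₀ j = Δ * (M i j * C (v j)) - ∑ a, if f a = j then M i (f a) * g a else 0 := by
      intro j
      show M i j * (Δ * C (v j) - ∑ a, if f a = j then g a else 0) = _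
      rw [mul_sub, Finset.mul_sum]
      congr 1
      · ring
      · refine Finset.sum_congr rfl fun a _ => ?_
        split_ifs with h
        · rw [h]
        · rw [mul_zero]
    rw [Finset.sum_congr rfl fun j _ => h1 j, Finset.sum_sub_distrib, ← Finset.mul_sum, Finset.sum_comm]
    congr 1
    refine Finset.sum_congr rfl fun a _ => ?_
    rw [Finset.sum_ite_eq Finset.univ (f a) (fun _ => M i (f a) * g a), if_pos (Finset.mem_univ _)]
  have hzero : ∀ i, ∑ j, M i j * w₀ j = 0 := by
    intro i
    rw [hrow]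
    have h2 : Δ * ∑ j, M i j * C (v j) = ∑ a, M i (f a) * g a := by
      rw [Finset.mul_sum]
      have h3 : ∀ j, Δ * (M i j * C (v j)) = ∑ a, ∑ b, M i (f a) * B.adjugate a b * (M (e b) j * C (v j)) := by
        intro j
        rw [← mul_assoc, schur hd hmax i j, Finset.sum_mul]
        refine Finset.sum_congr rfl fun a _ => ?_
        rw [Finset.sum_mul]
        refine Finset.sum_congr rfl fun b _ => ?_
        ring
      rw [Finset.sum_congr rfl fun j _ => h3 j, Finset.sum_comm]
      refine Finset.sum_congr rfl fun a _ => ?_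
      rw [Finset.sum_comm]
      show _ = M i (f a) * ∑ b, B.adjugate a b * ∑ j, M (e b) j * C (v j)
      rw [Finset.mul_sum]
      refine Finset.sum_congr rfl fun b _ => ?_
      rw [Finset.mul_sum, Finset.mul_sum]
      refine Finset.sum_congr rfl fun j _ => ?_
      ring
    rw [h2, sub_self]
  refine ⟨fun j => C (eval y Δ)⁻¹ * w₀ j, fun i => ?_, fun j => ?_⟩
  · have h1 : ∑ j, M i j * (C (eval y Δ)⁻¹ * w₀ j) = C (eval y Δ)⁻¹ * ∑ j, M i j * w₀ j := by
      rw [Finset.mul_sum]
      refine Finset.sum_congr rfl fun j _ => ?_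
      ring
    rw [h1, hzero, mul_zero]
  · rw [map_mul, eval_C, hw₀, ← mul_assoc, inv_mul_cancel₀ hy, one_mul]

end

end Pool.Agent.Y120.R
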