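import Mathlib

/-!
# Zeros of polynomials at the points `(1/t_1, ..., 1/t_k)` in boxes
-/

set_option autoImplicit false

open MvPolynomial

namespace Pool.Agent.Y120.R

theorem zeros_box {k d : ℕ} {K : Type} [Field K] [CharZero K] {Δ : MvPolynomial (Fin k) K} (hΔ : Δ ≠ 0)
    (hd : Δ.totalDegree ≤ d) (x : Fin k → ℕ) (N : ℕ) (hN : 1 ≤ N) (S : Finset (Fin k → ℕ))
    (hS : ∀ t ∈ S, (∀ i, x i < t i ∧ t i ≤ x i + N) ∧ eval (fun i => 1 / (t i : K)) Δ = 0) :
    S.card ≤ k * d * N ^ (k - 1) := by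
  classical
  let g : ℕ → K := fun t => 1 / (t : K)
  have hg : Function.Injective g := by
    intro a b hab
    simp only [g, one_div, inv_inj, Nat.cast_inj] at hab
    exact hab
  let P : Fin k → Finset K := fun i => (Finset.Ioc (x i) (x i + N)).image g
  have hP : ∀ i, (P i).card = N := by
    intro i
    rw [Finset.card_image_of_injective _ hg, Nat.card_Ioc, Nat.add_sub_cancel_left]
  have h1 := schwartz_zippel_sum_degreeOf hΔ P
  have hinj : Set.InjOn (fun t : Fin k → ℕ => fun i => g (t i)) S := by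
    intro a _ b _ hab
    funext i
    exact hg (congrFun hab i)
  have h2 : S.card ≤ (({y ∈ Fintype.piFinset P | eval y Δ = 0}).card) := by
    rw [← Finset.card_image_of_injOn hinj]
    refine Finset.card_le_card ?_
    intro y hy
    obtain ⟨t, ht, rfl⟩ := Finset.mem_image.1 hy
    rw [Finset.mem_filter, Fintype.mem_piFinset]
    refine ⟨fun i => Finset.mem_image.2 ⟨t i, Finset.mem_Ioc.2 ((hS t ht).1 i), rfl⟩, (hS t ht).2⟩
  have hN0 : (0 : ℚ≥0) < N := by exact_mod_cast hN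
  simp only [hP, Finset.prod_const, Finset.card_univ, Fintype.card_fin] at h1
  rw [div_le_iff₀ (by positivity)] at h1
  rcases Nat.eq_zero_or_pos k with hk | hk
  · subst hk
    simp only [Finset.univ_eq_empty, Finset.sum_empty, zero_mul] at h1
    have h3 : (({y ∈ Fintype.piFinset P | eval y Δ = 0}).card : ℚ≥0) = 0 := le_antisymm h1 (zero_le)
    have h4 : ({y ∈ Fintype.piFinset P | eval y Δ = 0}).card = 0 := by exact_mod_cast h3
    omega
  have h3 : ∑ i : Fin k, ((degreeOf i Δ : ℚ≥0) / (N : ℚ≥0)) ≤ ∑ _i : Fin k, ((d : ℚ≥0) / N) := by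
    refine Finset.sum_le_sum fun i _ => ?_
    have h4 : (degreeOf i Δ : ℚ≥0) ≤ d := by exact_mod_cast (degreeOf_le_totalDegree Δ i).trans hd
    gcongr
  rw [Finset.sum_const, Finset.card_univ, Fintype.card_fin, nsmul_eq_mul] at h3
  have h5 : (S.card : ℚ≥0) ≤ (k : ℚ≥0) * ((d : ℚ≥0) / N) * (N : ℚ≥0) ^ k := by
    refine le_trans (by exact_mod_cast h2) (h1.trans ?_)
    gcongr
  have h6 : (k : ℚ≥0) * ((d : ℚ≥0) / N) * (N : ℚ≥0) ^ k = ((k * d * N ^ (k - 1) : ℕ) : ℚ≥0) := by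
    obtain ⟨l, rfl⟩ : ∃ l, k = l + 1 := ⟨k - 1, by omega⟩
    rw [Nat.add_sub_cancel]
    push_cast
    field_simp
    ring
  rw [h6] at h5
  exact_mod_cast h5

end Pool.Agent.Y120.R
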