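import Pool.Agent.Y120.R.Exp
import Pool.Agent.Y120.R.SZ
import Pool.Agent.Y120.R.Lift

/-!
# Good tuples
-/

set_option autoImplicit false

open PowerSeries Pool.Agent.Y113 Pool.Agent.Y120.GF Pool.Agent.Y120.GH

namespace Pool.Agent.Y120.R

/-- few tuples have a small coordinate -/
lemma small {k : ℕ} (w N : ℕ) (x : Fin k → ℕ) (S : Finset (Fin k → ℕ))
    (hS : ∀ t ∈ S, (∀ i, x i < t i ∧ t i ≤ x i + N) ∧ ∃ i, t i ≤ w) : S.card ≤ k * (w + 1) * N ^ (k - 1) := by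
  classical
  have e1 : S ⊆ Finset.univ.biUnion fun i : Fin k =>
      Fintype.piFinset fun j : Fin k => if j = i then Finset.range (w + 1) else Finset.Ioc (x j) (x j + N) := by
    intro t ht
    obtain ⟨hbox, i, hi⟩ := hS t ht
    rw [Finset.mem_biUnion]
    refine ⟨i, Finset.mem_univ _, ?_⟩
    rw [Fintype.mem_piFinset]
    intro j
    split_ifs with hj
    · subst hj
      exact Finset.mem_range.2 (by omega)
    · exact Finset.mem_Ioc.2 (hbox j)
  have e2 : S.card ≤ ∑ _i : Fin k, (w + 1) * N ^ (k - 1) := by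
    refine (Finset.card_le_card e1).trans (Finset.card_biUnion_le.trans (Finset.sum_le_sum fun i _ => ?_))
    rw [Fintype.card_piFinset, ← Finset.mul_prod_erase _ _ (Finset.mem_univ i), if_pos rfl, Finset.card_range]
    refine Nat.mul_le_mul_left _ ?_
    have e3 : ∀ j ∈ Finset.univ.erase i, (if j = i then Finset.range (w + 1) else Finset.Ioc (x j) (x j + N)).card = N := by
      intro j hj
      rw [if_neg (Finset.ne_of_mem_erase hj), Nat.card_Ioc, Nat.add_sub_cancel_left]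
    rw [Finset.prod_congr rfl e3, Finset.prod_const, Finset.card_erase_of_mem (Finset.mem_univ i), Finset.card_univ,
      Fintype.card_fin]
  refine e2.trans (le_of_eq ?_)
  rw [Finset.sum_const, Finset.card_univ, Fintype.card_fin, smul_eq_mul, mul_assoc]

section
variable {k δ : ℕ} {r : Fin k → ℕ} {h : ∀ i, Fin (r i) → ℚ⟦X⟧} {B : ∀ i, Finset (Fin δ → Option (Fin (r i)))}
  {a : Fin k → Polynomial ℤ} {M : ∀ i, (Fin δ → Option (Fin (r i))) → B i → Polynomial ℤ}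

lemma cc_mem {V : Submodule ℚ ℂ} {P : MvPolynomial (Σ i, Option (Fin (r i))) ℂ} (hP : ∀ s, P.coeff s ∈ V)
    (t : Fin k → ℕ) (p : ∀ i, B i × Fin (δ + 1)) : MvPolynomial.eval (fun i => 1 / (t i : ℂ)) (cc M P p) ∈ V := by
  rw [eval_cc]
  refine Submodule.sum_mem _ fun s _ => ?_
  have h2 : ∀ (u : ℕ) (q : Polynomial ℤ), Polynomial.aeval (1 / (u : ℂ)) q = ((Polynomial.aeval (1 / (u : ℚ)) q : ℚ) : ℂ) := by
    intro u q
    have h1 : (1 / (u : ℂ)) = algebraMap ℚ ℂ (1 / (u : ℚ)) := by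
      rw [eq_ratCast]
      push_cast
      rfl
    rw [h1, Polynomial.aeval_algebraMap_apply, eq_ratCast]
  have h1 : P.coeff s * ∏ i, Polynomial.aeval (1 / (t i : ℂ)) (mm M s i (p i)) =
      (∏ i, Polynomial.aeval (1 / (t i : ℚ)) (mm M s i (p i)) : ℚ) • P.coeff s := by
    rw [Rat.smul_def, mul_comm]
    push_cast
    congr 1
    exact Finset.prod_congr rfl fun i _ => h2 _ _
  rw [h1]
  exact V.smul_mem _ (hP s)

/-- for almost all tuples the expansion of a relation is trivial -/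
theorem good (D : ℕ) (hM : ∀ i b, ps (a i) * yw (h i) b = ∑ β, ps (M i b β) * yw (h i) β.1)
    (hOne : ∀ i, One (XF δ fun β : B i => yw (h i) β.1)) {C₀ : Fin k → ℝ} (hC₀ : ∀ i, 0 ≤ C₀ i)
    (hh : ∀ i j m, |((coeff m (h i j) : ℚ) : ℝ)| ≤ C₀ i ^ (m + 1)) :
    ∃ c C : ℝ, 0 < c ∧ 0 ≤ C ∧ ∀ (V : Submodule ℚ ℂ) [Module.Finite ℚ V], Module.finrank ℚ V ≤ D →
      ∀ (x : Fin k → ℕ) (N : ℕ), 1 ≤ N → ∀ S : Finset (Fin k → ℕ),
      (∀ t ∈ S, (∀ i, x i < t i ∧ t i ≤ x i + N) ∧ (∀ i, C₀ i < t i) ∧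
        ∃ P : MvPolynomial (Σ i, Option (Fin (r i))) ℂ, P.totalDegree ≤ δ ∧ (∀ s, P.coeff s ∈ V) ∧
        MvPolynomial.aeval (vp h fun i => (t i : ℝ)) P = 0 ∧
        ∃ p : (∀ i, B i × Fin (δ + 1)), MvPolynomial.eval (fun i => 1 / (t i : ℂ)) (cc M P p) ≠ 0) →
      (S.card : ℝ) ≤ C * (N : ℝ) ^ (k - 1) * ∑ i, (1 + N / ((x i : ℝ) + N) ^ c) := by
  classical
  obtain ⟨c, C, hc, hC, hcount⟩ := count_ks D k (fun i => B i × Fin (δ + 1)) (fun i => XF δ fun β : B i => yw (h i) β.1) hOne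
  refine ⟨c, C, hc, hC, ?_⟩
  intro V _ hV x N hN S hS
  refine hcount V hV x N hN S fun t ht => ?_
  obtain ⟨hbox, hbig, P, hPd, hPV, hP0, p₀, hp₀⟩ := hS t ht
  refine ⟨hbox, fun p => MvPolynomial.eval (fun i => 1 / (t i : ℂ)) (cc M P p), fun p => cc_mem hPV t p, fun h0 => ?_, ?_⟩
  · exact hp₀ (congrFun h0 p₀)
  · have h1 := expand_real a M hM hC₀ hh hbig P hPd
    rw [hP0, mul_zero] at h1
    refine Eq.trans ?_ h1.symm
    refine Finset.sum_congr rfl fun p _ => ?_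
    rfl

end

end Pool.Agent.Y120.R
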