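import Pool.Agent.Y120.R.XY
import Pool.Agent.Y120.H.Cx

/-!
# Analytic continuation of functional relations
-/

set_option autoImplicit false

open PowerSeries Pool.Agent.Y113 Pool.Agent.Y120.GF Pool.Agent.Y120.GH Filter Topology

namespace Pool.Agent.Y120.R

section
variable {r : ℕ} (h : Fin r → ℚ⟦X⟧)

/-- the values at a real point -/
noncomputable def p1 (s : ℝ) (o : Option (Fin r)) : ℂ := o.elim ((Real.log s : ℝ) : ℂ) fun l => ((ev s (h l) : ℝ) : ℂ)

/-- the values at a complex point -/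
noncomputable def c1 (z : ℂ) (o : Option (Fin r)) : ℂ := o.elim (Complex.log z) fun l => ou (cx (h l)) z

lemma c1_real {s : ℝ} (hs : 0 < s) : c1 h (s : ℂ) = p1 h s := by
  funext o
  rcases o with _ | l
  · show Complex.log (s : ℂ) = ((Real.log s : ℝ) : ℂ)
    rw [Complex.ofReal_log hs.le]
  · exact ou_ev (h l) s

lemma c1_an {C : ℝ} (hC : 0 ≤ C) (hh : ∀ l m, |((coeff m (h l) : ℚ) : ℝ)| ≤ C ^ (m + 1)) {z : ℂ} (hz : C < z.re)
    (o : Option (Fin r)) : AnalyticAt ℂ (fun z => c1 h z o) z := by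
  have hz0 : 0 < z.re := lt_of_le_of_lt hC hz
  rcases o with _ | l
  · exact analyticAt_clog (Or.inl hz0)
  · exact ou_an hC (cx_mem hC (hh l)) z (lt_of_lt_of_le hz (Complex.re_le_norm z))

/-- the value of a relation at a complex point -/
noncomputable def E1 {ν : Type} (q : ν → MvPolynomial (Option (Fin r)) ℂ) (R : MvPolynomial ν (Polynomial ℂ)) (z : ℂ) : ℂ :=
  MvPolynomial.eval₂ (Polynomial.evalRingHom (1 / z)) (fun v => MvPolynomial.aeval (c1 h z) (q v)) R

lemma E1_an {C : ℝ} (hC : 0 ≤ C) (hh : ∀ l m, |((coeff m (h l) : ℚ) : ℝ)| ≤ C ^ (m + 1)) {ν : Type}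
    (q : ν → MvPolynomial (Option (Fin r)) ℂ) (R : MvPolynomial ν (Polynomial ℂ)) {z : ℂ} (hz : C < z.re) :
    AnalyticAt ℂ (E1 h q R) z := by
  have hz0 : z ≠ 0 := by
    rintro rfl
    rw [Complex.zero_re] at hz
    linarith
  have hq : ∀ v, AnalyticAt ℂ (fun z => MvPolynomial.aeval (c1 h z) (q v)) z := fun v =>
    AnalyticAt.aeval_mvPolynomial (fun o => c1_an h hC hh hz o) (q v)
  induction R using MvPolynomial.induction_on with
  | C a =>
    have h1 : E1 h q (MvPolynomial.C a) = fun z => Polynomial.aeval (1 / z) a := by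
      funext w
      unfold E1
      rw [MvPolynomial.eval₂_C, Polynomial.coe_evalRingHom, Polynomial.coe_aeval_eq_eval]
    rw [h1]
    exact AnalyticAt.aeval_polynomial (analyticAt_const.div analyticAt_id hz0) a
  | add p p' hp hp' =>
    have h1 : E1 h q (p + p') = fun z => E1 h q p z + E1 h q p' z := by
      funext w
      unfold E1
      rw [MvPolynomial.eval₂_add]
    rw [h1]
    exact hp.add hp'
  | mul_X p v hp =>
    have h1 : E1 h q (p * MvPolynomial.X v) = fun z => E1 h q p z * MvPolynomial.aeval (c1 h z) (q v) := by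
      funext w
      unfold E1
      rw [MvPolynomial.eval₂_mul, MvPolynomial.eval₂_X]
    rw [h1]
    exact hp.mul (hq v)

/-- a relation which holds for all large real numbers holds on the whole ray -/
theorem ac {C : ℝ} (hC : 0 ≤ C) (hh : ∀ l m, |((coeff m (h l) : ℚ) : ℝ)| ≤ C ^ (m + 1)) {ν : Type}
    (q : ν → MvPolynomial (Option (Fin r)) ℂ) (R : MvPolynomial ν (Polynomial ℂ))
    (h0 : ∀ᶠ s : ℝ in atTop, E1 h q R (s : ℂ) = 0) {s : ℝ} (hs : C < s) : E1 h q R (s : ℂ) = 0 := by
  obtain ⟨S, hS⟩ := eventually_atTop.1 h0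
  set U : Set ℂ := {z | C < z.re} with hU
  have hconv : Convex ℝ U := convex_halfSpace_re_gt C
  have han : AnalyticOnNhd ℂ (E1 h q R) U := fun z hz => E1_an h hC hh q R hz
  set z₀ : ℂ := ((max S C + 1 : ℝ) : ℂ) with hz₀
  have hz₀U : z₀ ∈ U := by
    show C < z₀.re
    rw [hz₀, Complex.ofReal_re]
    have := le_max_right S C
    linarith
  have hfreq : ∃ᶠ z in 𝓝[≠] z₀, E1 h q R z = 0 := by
    let u : ℕ → ℂ := fun n => ((max S C + 1 + 1 / ((n : ℝ) + 1) : ℝ) : ℂ)
    have hu : Tendsto u atTop (𝓝[≠] z₀) := by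
      rw [tendsto_nhdsWithin_iff]
      refine ⟨?_, Eventually.of_forall fun n => ?_⟩
      · have h1 : Tendsto (fun n : ℕ => (max S C + 1 + 1 / ((n : ℝ) + 1) : ℝ)) atTop (𝓝 (max S C + 1 + 0)) :=
          tendsto_const_nhds.add tendsto_one_div_add_atTop_nhds_zero_nat
        rw [add_zero] at h1
        exact (Complex.continuous_ofReal.tendsto _).comp h1
      · show u n ≠ z₀
        intro h1
        have h2 : (max S C + 1 + 1 / ((n : ℝ) + 1) : ℝ) = max S C + 1 := Complex.ofReal_injective h1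
        have h3 : (0 : ℝ) < 1 / ((n : ℝ) + 1) := by positivity
        linarith
    refine hu.frequently (Eventually.frequently (Eventually.of_forall fun n => ?_))
    refine hS _ ?_
    have h3 : (0 : ℝ) < 1 / ((n : ℝ) + 1) := by positivity
    have := le_max_left S C
    linarith
  have h1 := han.eqOn_zero_of_preconnected_of_frequently_eq_zero hconv.isPreconnected hz₀U hfreq
  exact h1 (show C < (s : ℂ).re by rwa [Complex.ofReal_re])

end

end Pool.Agent.Y120.R
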