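import Pool.Agent.Y120.H.Res

/-!
# Expansions of polynomials in the functions and the logarithms
-/

set_option autoImplicit false

open PowerSeries Pool.Agent.Y113 Pool.Agent.Y120.GF Pool.Agent.Y120.GH

namespace Pool.Agent.Y120.R

section
variable {k δ : ℕ} {r : Fin k → ℕ} {B : ∀ i, Finset (Fin δ → Option (Fin (r i)))} (a : Fin k → Polynomial ℤ)
  (M : ∀ i, (Fin δ → Option (Fin (r i))) → B i → Polynomial ℤ)

/-- the coefficients of a monomial -/
noncomputable def mm (s : Ex r) (i : Fin k) (p : B i × Fin (δ + 1)) : Polynomial ℤ :=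
  if (p.2 : ℕ) = s ⟨i, none⟩ then M i (wd (r i) δ fun j => s ⟨i, some j⟩) p.1 else 0

/-- the product of the coefficients of a monomial, a polynomial in `k` variables over `A` -/
noncomputable def mp (A : Type) [CommRing A] (s : Ex r) (p : ∀ i, B i × Fin (δ + 1)) : MvPolynomial (Fin k) A :=
  ∏ i, Polynomial.aeval (MvPolynomial.X i : MvPolynomial (Fin k) A) (mm M s i (p i))

/-- the coefficients of a polynomial -/
noncomputable def cc (P : MvPolynomial (Σ i, Option (Fin (r i))) ℂ) (p : ∀ i, B i × Fin (δ + 1)) :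
    MvPolynomial (Fin k) ℂ := ∑ s ∈ P.support, MvPolynomial.C (P.coeff s) * mp M ℂ s p

lemma eval_mp {A A' : Type} [CommRing A] [CommRing A'] (f : A →+* A') (y : Fin k → A') (s : Ex r) (p : ∀ i, B i × Fin (δ + 1)) :
    MvPolynomial.eval₂ f y (mp M A s p) = ∏ i, Polynomial.aeval (y i) (mm M s i (p i)) := by
  unfold mp
  rw [← MvPolynomial.coe_eval₂Hom, map_prod]
  refine Finset.prod_congr rfl fun i _ => ?_
  rw [Polynomial.aeval_def, Polynomial.hom_eval₂, MvPolynomial.coe_eval₂Hom, MvPolynomial.eval₂_X, Polynomial.aeval_def]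
  congr 1
  exact Subsingleton.elim _ _

lemma map_mp {A A' : Type} [CommRing A] [CommRing A'] (f : A →+* A') (s : Ex r) (p : ∀ i, B i × Fin (δ + 1)) :
    MvPolynomial.map f (mp M A s p) = mp M A' s p := by
  unfold mp
  rw [map_prod]
  refine Finset.prod_congr rfl fun i _ => ?_
  rw [Polynomial.aeval_def, Polynomial.hom_eval₂, MvPolynomial.map_X, Polynomial.aeval_def]
  congr 1
  exact Subsingleton.elim _ _

lemma mp_deg {d : ℕ} (hd : ∀ i b β, (M i b β).natDegree ≤ d) (A : Type) [CommRing A] (s : Ex r)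
    (p : ∀ i, B i × Fin (δ + 1)) : (mp M A s p).totalDegree ≤ k * d := by
  refine (MvPolynomial.totalDegree_finsetProd _ _).trans ?_
  refine (Finset.sum_le_card_nsmul _ _ d fun i _ => ?_).trans (by simp)
  rw [Polynomial.aeval_eq_sum_range]
  refine (MvPolynomial.totalDegree_finsetSum _ _).trans (Finset.sup_le fun n hn => ?_)
  have hn' : n ≤ d := by
    have h1 : n ≤ (mm M s i (p i)).natDegree := by
      have := Finset.mem_range.1 hn
      omega
    refine h1.trans ?_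
    unfold mm
    split_ifs
    · exact hd _ _ _
    · rw [Polynomial.natDegree_zero]
      exact Nat.zero_le _
  have h2 : ((mm M s i (p i)).coeff n • (MvPolynomial.X i : MvPolynomial (Fin k) A) ^ n) =
      MvPolynomial.C (((mm M s i (p i)).coeff n : ℤ) : A) * (MvPolynomial.X i : MvPolynomial (Fin k) A) ^ n := by
    rw [zsmul_eq_mul, map_intCast]
  rw [h2]
  refine (MvPolynomial.totalDegree_mul _ _).trans ?_
  rw [MvPolynomial.totalDegree_C, zero_add]
  refine (MvPolynomial.totalDegree_pow _ _).trans ?_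
  rcases subsingleton_or_nontrivial A with h | h
  · have : (MvPolynomial.X i : MvPolynomial (Fin k) A) = 0 := Subsingleton.elim _ _
    rw [this, MvPolynomial.totalDegree_zero, mul_zero]
    exact Nat.zero_le _
  · rw [MvPolynomial.totalDegree_X, mul_one]
    exact hn'

lemma eval_cc (P : MvPolynomial (Σ i, Option (Fin (r i))) ℂ) (y : Fin k → ℂ) (p : ∀ i, B i × Fin (δ + 1)) :
    MvPolynomial.eval y (cc M P p) = ∑ s ∈ P.support, P.coeff s * ∏ i, Polynomial.aeval (y i) (mm M s i (p i)) := by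
  unfold cc
  rw [map_sum]
  refine Finset.sum_congr rfl fun s _ => ?_
  rw [map_mul, MvPolynomial.eval_C]
  congr 1
  exact eval_mp M (RingHom.id ℂ) y s p

/-- expansion of the values of a polynomial -/
theorem expand {K : Type} [CommRing K] [Algebra ℂ K] (y : Fin k → K) (z : ∀ i, Fin (r i) → K) (l : Fin k → K)
    (hz : ∀ i b, Polynomial.aeval (y i) (a i) * yw (z i) b = ∑ β, Polynomial.aeval (y i) (M i b β) * yw (z i) β.1)
    (P : MvPolynomial (Σ i, Option (Fin (r i))) ℂ) (hP : P.totalDegree ≤ δ) :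
    (∏ i, Polynomial.aeval (y i) (a i)) * MvPolynomial.aeval (pt z l) P =
      ∑ p : (∀ i, B i × Fin (δ + 1)), MvPolynomial.aeval y (cc M P p) * ∏ i, (yw (z i) (p i).1.1 * l i ^ ((p i).2 : ℕ)) := by
  classical
  have hfac : ∀ s ∈ P.support, ∀ i, Polynomial.aeval (y i) (a i) * (∏ o : Option (Fin (r i)), pt z l ⟨i, o⟩ ^ s ⟨i, o⟩) =
      ∑ p : B i × Fin (δ + 1), Polynomial.aeval (y i) (mm M s i p) * (yw (z i) p.1.1 * l i ^ (p.2 : ℕ)) := by
    intro s hs i
    have hdeg : (s.sum fun _ e => e) ≤ δ := (MvPolynomial.le_totalDegree hs).trans hP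
    have hsum : ∑ v, s v ≤ δ := by
      rw [Finsupp.sum_fintype _ _ (fun _ => rfl)] at hdeg
      exact hdeg
    rw [Fintype.sum_sigma] at hsum
    have hi : ∑ o : Option (Fin (r i)), s ⟨i, o⟩ ≤ δ :=
      (Finset.single_le_sum (f := fun i => ∑ o : Option (Fin (r i)), s ⟨i, o⟩) (fun _ _ => Nat.zero_le _)
        (Finset.mem_univ i)).trans hsum
    rw [Fintype.sum_option] at hi
    have h1 : ∑ j, s ⟨i, some j⟩ ≤ δ := by omega
    have h2 : s ⟨i, none⟩ < δ + 1 := by omega
    rw [Fintype.prod_option]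
    show Polynomial.aeval (y i) (a i) * (l i ^ s ⟨i, none⟩ * ∏ j, z i j ^ s ⟨i, some j⟩) = _
    rw [← wd_spec h1 (z i)]
    set b := wd (r i) δ fun j => s ⟨i, some j⟩ with hb
    have h3 : Polynomial.aeval (y i) (a i) * (l i ^ s ⟨i, none⟩ * yw (z i) b) =
        ∑ β, Polynomial.aeval (y i) (M i b β) * (yw (z i) β.1 * l i ^ s ⟨i, none⟩) := by
      have h4 : Polynomial.aeval (y i) (a i) * (l i ^ s ⟨i, none⟩ * yw (z i) b) =
          l i ^ s ⟨i, none⟩ * (Polynomial.aeval (y i) (a i) * yw (z i) b) := by ring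
      rw [h4, hz i b, Finset.mul_sum]
      refine Finset.sum_congr rfl fun β _ => ?_
      ring
    rw [h3, Fintype.sum_prod_type]
    refine Finset.sum_congr rfl fun β _ => ?_
    rw [Finset.sum_eq_single (⟨s ⟨i, none⟩, h2⟩ : Fin (δ + 1))]
    · rw [mm, if_pos rfl]
    · intro e _ hne
      rw [mm, if_neg]
      · rw [map_zero, zero_mul]
      · intro h5
        exact hne (Fin.ext h5)
    · intro h5
      exact absurd (Finset.mem_univ _) h5
  rw [MvPolynomial.aeval_def, MvPolynomial.eval₂_eq', Finset.mul_sum]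
  have h1 : ∀ s ∈ P.support, (∏ i, Polynomial.aeval (y i) (a i)) * (algebraMap ℂ K (P.coeff s) * ∏ v, pt z l v ^ s v) =
      ∑ p : (∀ i, B i × Fin (δ + 1)), algebraMap ℂ K (P.coeff s) * MvPolynomial.aeval y (mp M ℂ s p) *
        ∏ i, (yw (z i) (p i).1.1 * l i ^ ((p i).2 : ℕ)) := by
    intro s hs
    have h2 : (∏ i, Polynomial.aeval (y i) (a i)) * (algebraMap ℂ K (P.coeff s) * ∏ v, pt z l v ^ s v) =
        algebraMap ℂ K (P.coeff s) * ∏ i, (Polynomial.aeval (y i) (a i) * ∏ o : Option (Fin (r i)), pt z l ⟨i, o⟩ ^ s ⟨i, o⟩) := by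
      rw [Finset.prod_mul_distrib, Fintype.prod_sigma]
      ring
    rw [h2, Finset.prod_congr rfl fun i _ => hfac s hs i, Finset.prod_univ_sum, Fintype.piFinset_univ, Finset.mul_sum]
    refine Finset.sum_congr rfl fun p _ => ?_
    rw [Finset.prod_mul_distrib, MvPolynomial.aeval_def, eval_mp]
    ring
  rw [Finset.sum_congr rfl h1, Finset.sum_comm]
  refine Finset.sum_congr rfl fun p _ => ?_
  rw [← Finset.sum_mul]
  congr 1
  unfold cc
  rw [map_sum]
  refine Finset.sum_congr rfl fun s _ => ?_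
  rw [map_mul, MvPolynomial.algHom_C]

/-- the point of the values at real arguments -/
noncomputable def vp (h : ∀ i, Fin (r i) → ℚ⟦X⟧) (s : Fin k → ℝ) : (Σ i, Option (Fin (r i))) → ℂ :=
  pt (fun i j => ((ev (s i) (h i j) : ℝ) : ℂ)) (fun i => ((Real.log (s i) : ℝ) : ℂ))

/-- the functions at real arguments -/
noncomputable def xf (h : ∀ i, Fin (r i) → ℚ⟦X⟧) (s : Fin k → ℝ) (p : ∀ i, B i × Fin (δ + 1)) : ℂ :=
  ∏ i, (((ev (s i) (yw (h i) (p i).1.1) : ℝ) : ℂ) * ((Real.log (s i) : ℝ) : ℂ) ^ ((p i).2 : ℕ))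

lemma aeval_cast (s : ℝ) (p : Polynomial ℤ) : Polynomial.aeval (1 / (s : ℂ)) p = ((Polynomial.aeval (1 / s) p : ℝ) : ℂ) := by
  have h1 : (1 / (s : ℂ)) = algebraMap ℝ ℂ (1 / s) := by
    rw [Complex.coe_algebraMap]
    push_cast
    rfl
  rw [h1, Polynomial.aeval_algebraMap_apply]
  rfl

lemma ev_ps' (s : ℝ) (P : Polynomial ℤ) : ev s (ps P) = Polynomial.aeval (1 / s) P := by
  unfold ps
  rw [ev_coe]
  have : (Int.castRingHom ℚ) = algebraMap ℤ ℚ := rfl
  rw [this, Polynomial.aeval_map_algebraMap]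

/-- expansion of the values at real arguments -/
theorem expand_real {h : ∀ i, Fin (r i) → ℚ⟦X⟧}
    (hM : ∀ i b, ps (a i) * yw (h i) b = ∑ β, ps (M i b β) * yw (h i) β.1)
    {C : Fin k → ℝ} (hC : ∀ i, 0 ≤ C i) (hh : ∀ i j m, |((coeff m (h i j) : ℚ) : ℝ)| ≤ C i ^ (m + 1))
    {s : Fin k → ℝ} (hs : ∀ i, C i < s i) (P : MvPolynomial (Σ i, Option (Fin (r i))) ℂ) (hP : P.totalDegree ≤ δ) :
    (∏ i, Polynomial.aeval (1 / (s i : ℂ)) (a i)) * MvPolynomial.aeval (vp h s) P =
      ∑ p : (∀ i, B i × Fin (δ + 1)), MvPolynomial.eval (fun i => 1 / (s i : ℂ)) (cc M P p) * xf h s p := by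
  classical
  have hcv : ∀ i (b : Fin δ → Option (Fin (r i))), Cv (s i) (yw (h i) b) := fun i b =>
    (ev_yw (hC i) (hh i) (hs i) b).1
  have hvl : ∀ i (b : Fin δ → Option (Fin (r i))), ((ev (s i) (yw (h i) b) : ℝ) : ℂ) =
      yw (fun j => ((ev (s i) (h i j) : ℝ) : ℂ)) b := fun i b => (ev_yw (hC i) (hh i) (hs i) b).2
  have hz : ∀ i (b : Fin δ → Option (Fin (r i))), Polynomial.aeval (1 / (s i : ℂ)) (a i) *
      yw (fun j => ((ev (s i) (h i j) : ℝ) : ℂ)) b =
      ∑ β : B i, Polynomial.aeval (1 / (s i : ℂ)) (M i b β) * yw (fun j => ((ev (s i) (h i j) : ℝ) : ℂ)) β.1 := by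
    intro i b
    have ht0 : (0 : ℝ) < s i := lt_of_le_of_lt (hC i) (hs i)
    have hcps : ∀ p : Polynomial ℤ, Cv (s i) (ps p) := fun p => Cv.coe _
    have e1 : ev (s i) (ps (a i) * yw (h i) b) = ∑ β : B i, ev (s i) (ps (M i b β) * yw (h i) β.1) := by
      rw [hM i b]
      exact Cv.ev_sum ht0 Finset.univ (fun β : B i => ps (M i b β) * yw (h i) β.1) fun β _ => (hcps _).mul ht0 (hcv i _)
    have e3 : ∀ (p : Polynomial ℤ) (b : Fin δ → Option (Fin (r i))), ((ev (s i) (ps p * yw (h i) b) : ℝ) : ℂ) =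
        Polynomial.aeval (1 / (s i : ℂ)) p * yw (fun j => ((ev (s i) (h i j) : ℝ) : ℂ)) b := by
      intro p b
      rw [Cv.ev_mul ht0 (hcps p) (hcv i b), ev_ps', Complex.ofReal_mul, hvl, aeval_cast]
    have e2 := congrArg (fun x : ℝ => (x : ℂ)) e1
    beta_reduce at e2
    rw [Complex.ofReal_sum, e3] at e2
    simp only [e3] at e2
    exact e2
  have h1 := expand (K := ℂ) a M (fun i => 1 / (s i : ℂ)) (fun i j => ((ev (s i) (h i j) : ℝ) : ℂ))
    (fun i => ((Real.log (s i) : ℝ) : ℂ)) hz P hP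
  refine Eq.trans h1 ?_
  refine Finset.sum_congr rfl fun p _ => ?_
  congr 1
  unfold xf
  refine Finset.prod_congr rfl fun i _ => ?_
  rw [hvl]

end

end Pool.Agent.Y120.R
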