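import Pool.Agent.Y120.R.Tens

/-!
# de Rham-Betti classes and subobjects at almost all tuples
-/

set_option autoImplicit false

open PowerSeries Pool.Agent.Y113 Pool.Agent.Y120.GF Pool.Agent.Y120.GH Filter Topology

namespace Pool.Agent.Y120.R

section
variable {r n : ℕ}

/-- the period matrix -/
noncomputable def pM (h : Fin r → ℚ⟦X⟧) (P : Fin n → Fin n → MvPolynomial (Option (Fin r)) ℂ) (s : ℝ) :
    Matrix (Fin n) (Fin n) ℂ := Matrix.of fun a b => MvPolynomial.aeval (p1 h s) (P a b)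

/-- the value of a relation at a matrix -/
noncomputable def rel1 (R : MvPolynomial (Fin n × Fin n) (Polynomial ℂ)) (s : ℝ) (Z : Matrix (Fin n) (Fin n) ℂ) : ℂ :=
  MvPolynomial.eval₂ (Polynomial.evalRingHom (1 / (s : ℂ))) (fun v => Z v.1 v.2) R

/-- the group of the functional relations -/
def G1 (h : Fin r → ℚ⟦X⟧) (P : Fin n → Fin n → MvPolynomial (Option (Fin r)) ℂ) : Set (Matrix.GeneralLinearGroup (Fin n) ℂ) :=
  {g | ∀ R : MvPolynomial (Fin n × Fin n) (Polynomial ℂ), (∀ᶠ s : ℝ in atTop, rel1 R s (pM h P s) = 0) →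
    ∀ᶠ s : ℝ in atTop, rel1 R s (pM h P s * (g : Matrix (Fin n) (Fin n) ℂ)) = 0}

/-- the translated matrix -/
noncomputable def tr (P : Fin n → Fin n → MvPolynomial (Option (Fin r)) ℂ) (g : Matrix (Fin n) (Fin n) ℂ)
    (v : Fin n × Fin n) : MvPolynomial (Option (Fin r)) ℂ := ∑ l, P v.1 l * MvPolynomial.C (g l v.2)

lemma tr_eval (h : Fin r → ℚ⟦X⟧) (P : Fin n → Fin n → MvPolynomial (Option (Fin r)) ℂ) (g : Matrix (Fin n) (Fin n) ℂ)
    (s : ℝ) (v : Fin n × Fin n) : MvPolynomial.aeval (p1 h s) (tr P g v) = (pM h P s * g) v.1 v.2 := by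
  unfold tr
  rw [map_sum, Matrix.mul_apply]
  refine Finset.sum_congr rfl fun l _ => ?_
  rw [map_mul, MvPolynomial.aeval_C]
  rfl

lemma G1_sat {h : Fin r → ℚ⟦X⟧} {P : Fin n → Fin n → MvPolynomial (Option (Fin r)) ℂ}
    {g : Matrix.GeneralLinearGroup (Fin n) ℂ} (hg : g ∈ G1 h P) :
    Sat h (fun v : Fin n × Fin n => P v.1 v.2) (tr P (g : Matrix (Fin n) (Fin n) ℂ)) := by
  intro R hR
  have h1 : ∀ᶠ s : ℝ in atTop, rel1 R s (pM h P s) = 0 := by
    filter_upwards [hR, eventually_gt_atTop 0] with s hs hs0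
    unfold E1 at hs
    rw [c1_real h hs0] at hs
    exact hs
  filter_upwards [hg R h1, eventually_gt_atTop 0] with s hs hs0
  unfold E1
  rw [c1_real h hs0]
  simp only [tr_eval]
  exact hs

end

section
variable {k : ℕ} {r n : Fin k → ℕ} {h : ∀ i, Fin (r i) → ℚ⟦X⟧}

theorem gm (d e D L : ℕ) (hF : ∀ i, Fam (d * e) (h i)) :
    ∃ c C : ℝ, 0 < c ∧ 0 ≤ C ∧ ∀ m : Fin L → Fin k → ℕ, (∀ l, ∑ i, m l i ≤ d) →
      ∀ P : ∀ i, Fin (n i) → Fin (n i) → MvPolynomial (Option (Fin (r i))) ℂ, (∀ i a b, (P i a b).totalDegree ≤ e) →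
      ∀ ω : Fin L → ℂ, (∀ l, ω l ≠ 0) →
      ∀ (K : IntermediateField ℚ ℂ), FiniteDimensional ℚ K → Module.finrank ℚ K ≤ D →
      ∀ (x : Fin k → ℕ) (N : ℕ), 1 ≤ N → ∀ S : Finset (Fin k → ℕ),
      (∀ t ∈ S, (∀ i, x i < t i ∧ t i ≤ x i + N) ∧ (∀ i, (pM (h i) (P i) (t i : ℝ)).det ≠ 0) ∧
        ∃ g : ∀ i, Matrix.GeneralLinearGroup (Fin (n i)) ℂ, (∀ i, g i ∈ G1 (h i) (P i)) ∧
        ((∃ α w : (Σ l, ∀ i, Fin (m l i) → Fin (n i)) → K,
          (tens m ω fun i => pM (h i) (P i) (t i : ℝ)).mulVec (fun I => (α I : ℂ)) = (fun J => (w J : ℂ)) ∧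
          (tens m (fun _ => 1) fun i => (g i : Matrix (Fin (n i)) (Fin (n i)) ℂ)).mulVec (fun I => (α I : ℂ)) ≠
            fun I => (α I : ℂ)) ∨
        ∃ U W : Submodule K ((Σ l, ∀ i, Fin (m l i) → Fin (n i)) → K),
          (ext U).map (tens m ω fun i => pM (h i) (P i) (t i : ℝ)).mulVecLin = ext W ∧
          (ext U).map (tens m (fun _ => 1) fun i => (g i : Matrix (Fin (n i)) (Fin (n i)) ℂ)).mulVecLin ≠ ext U)) →
      (S.card : ℝ) ≤ C * (N : ℝ) ^ (k - 1) * ∑ i, (1 + N / ((x i : ℝ) + N) ^ c) := by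
  classical
  obtain ⟨c, C, hc, hC, h1⟩ := gx (ν := fun i => Fin (n i) × Fin (n i)) d e ((L + 1) * D) hF
  refine ⟨c, C, hc, hC, ?_⟩
  intro m hm P hP ω hω K _ hK x N hN S hS
  refine h1 (fun i v => P i v.1 v.2) (fun i v => hP i _ _) (cV K ω) (cV_rank hK) x N hN S fun t ht => ?_
  obtain ⟨hbox, hdet, g, hg, hor⟩ := hS t ht
  refine ⟨hbox, ?_⟩
  set Z : ∀ i, Matrix (Fin (n i)) (Fin (n i)) ℂ := fun i => pM (h i) (P i) (t i : ℝ) with hZ
  set gg : ∀ i, Matrix (Fin (n i)) (Fin (n i)) ℂ := fun i => (g i : Matrix (Fin (n i)) (Fin (n i)) ℂ) with hgg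
  by_contra hcon
  push Not at hcon
  have hpn : pn h (fun i (v : Fin (n i) × Fin (n i)) => P i v.1 v.2) (fun i => (t i : ℝ)) =
      fun v : Σ i, Fin (n i) × Fin (n i) => Z v.1 v.2.1 v.2.2 := rfl
  have hpn' : pn h (fun i => tr (P i) (gg i)) (fun i => (t i : ℝ)) =
      fun v : Σ i, Fin (n i) × Fin (n i) => (fun i => Z i * gg i) v.1 v.2.1 v.2.2 := by
    funext v
    exact tr_eval (h v.1) (P v.1) (gg v.1) (t v.1 : ℝ) v.2
  have key : ∀ (a : (Σ l, ∀ i, Fin (m l i) → Fin (n i)) → (Σ l, ∀ i, Fin (m l i) → Fin (n i)) → K) (b : K),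
      ∑ J, ∑ I, (a J I : ℂ) * tens m ω Z J I - (b : ℂ) = 0 →
      ∑ J, ∑ I, (a J I : ℂ) * (tens m ω Z * tens m (fun _ => 1) gg) J I - (b : ℂ) = 0 := by
    intro a b hab
    have h2 := hcon (Fb m ω (fun J I => (a J I : ℂ)) (b : ℂ)) (Fb_deg m hm ω _ _)
      (fun s => Fb_mem m (fun l J I => cV_om l _) (cV_one _) s)
      (by rw [hpn, Fb_eval]; exact hab)
      (fun i => tr (P i) (gg i)) (fun i => G1_sat (hg i))
    rw [hpn'] at h2
    have h3 := Fb_eval m ω (fun J I => (a J I : ℂ)) (b : ℂ) (fun i => Z i * gg i)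
    rw [tens_mul] at h3
    exact h3.symm.trans h2
  rcases hor with ⟨α, w, hα, hne⟩ | ⟨U, W, hUW, hne⟩
  · apply hne
    have h3 : (tens m ω Z * tens m (fun _ => 1) gg).mulVec (fun I => (α I : ℂ)) = fun J => (w J : ℂ) := by
      funext J'
      have h4 := key (fun J I => if J = J' then α I else 0) (w J') (by
        rw [Finset.sum_eq_single J', sub_eq_zero]
        · simp only [if_true]
          rw [← congrFun hα J']
          exact Finset.sum_congr rfl fun I _ => mul_comm _ _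
        · intro J _ hJ
          refine Finset.sum_eq_zero fun I _ => ?_
          rw [if_neg hJ]
          simp
        · intro h5
          exact absurd (Finset.mem_univ _) h5)
      rw [Finset.sum_eq_single J', sub_eq_zero] at h4
      · simp only [if_true] at h4
        rw [← h4]
        exact Finset.sum_congr rfl fun I _ => mul_comm _ _
      · intro J _ hJ
        refine Finset.sum_eq_zero fun I _ => ?_
        rw [if_neg hJ]
        simp
      · intro h5
        exact absurd (Finset.mem_univ _) h5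
    rw [← Matrix.mulVec_mulVec, ← hα] at h3
    exact tens_inj m hω hdet h3
  · apply hne
    have hinj : Function.Injective (tens m ω Z).mulVec := tens_inj m hω hdet
    have hinjg : Function.Injective (tens m (fun _ => 1) gg).mulVec := tens_inj m (fun _ => one_ne_zero) fun i => by
      have := (Matrix.isUnit_iff_isUnit_det _).1 (g i).isUnit
      exact this.ne_zero
    have hle : (ext U).map (tens m (fun _ => 1) gg).mulVecLin ≤ ext U := by
      unfold ext
      rw [Submodule.map_span_le]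
      rintro _ ⟨u, hu, rfl⟩
      have h5 : (tens m ω Z).mulVec ((tens m (fun _ => 1) gg).mulVec fun I => (u I : ℂ)) ∈ ext W := by
        refine mem_ext W _ fun l hl => ?_
        have h6 := key (fun J I => l J * u I) 0 (by
          have h7 : (tens m ω Z).mulVec (fun I => (u I : ℂ)) ∈ ext W := by
            rw [← hUW]
            exact ⟨_, Submodule.subset_span ⟨u, hu, rfl⟩, rfl⟩
          have h8 := ext_kill W h7 l hl
          rw [ZeroMemClass.coe_zero, sub_zero, ← h8]
          refine Finset.sum_congr rfl fun J _ => ?_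
          unfold Matrix.mulVec dotProduct
          rw [Finset.mul_sum]
          refine Finset.sum_congr rfl fun I _ => ?_
          push_cast
          ring)
        rw [ZeroMemClass.coe_zero, sub_zero] at h6
        rw [Matrix.mulVec_mulVec, ← h6]
        refine Finset.sum_congr rfl fun J _ => ?_
        unfold Matrix.mulVec dotProduct
        rw [Finset.mul_sum]
        refine Finset.sum_congr rfl fun I _ => ?_
        push_cast
        ring
      rw [← hUW] at h5
      obtain ⟨y, hy, hyz⟩ := h5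
      have h9 : y = (tens m (fun _ => 1) gg).mulVec fun I => (u I : ℂ) := hinj hyz
      rw [h9] at hy
      exact hy
    refine Submodule.eq_of_le_of_finrank_eq hle ?_
    exact (Submodule.equivMapOfInjective (tens m (fun _ => 1) gg).mulVecLin hinjg (ext U)).symm.finrank_eq
end

end Pool.Agent.Y120.R
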