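import Pool.Agent.Y120.R.Per

/-!
# Relations between period functions at almost all tuples of integers
-/

set_option autoImplicit false

open PowerSeries Pool.Agent.Y113 Pool.Agent.Y120.GF Pool.Agent.Y120.GH

namespace Pool.Agent.Y120.R

section
variable {k δ : ℕ} {r n : Fin k → ℕ} (q : ∀ i, Fin (n i) → MvPolynomial (Option (Fin (r i))) ℂ) {d : ℕ}

/-- the products of elements of `V` and coefficients of the monomials in the period functions -/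
noncomputable def fV (δ : ℕ) (d : ℕ) (V : Submodule ℚ ℂ) :
    (Jx (Σ i, Fin (n i)) d × Jx (Σ i, Option (Fin (r i))) δ → V) →ₗ[ℚ] ℂ where
  toFun v := ∑ js, (v js : ℂ) * (Z q js.1).coeff (ex js.2)
  map_add' u v := by
    rw [← Finset.sum_add_distrib]
    refine Finset.sum_congr rfl fun js _ => ?_
    rw [Pi.add_apply, Submodule.coe_add, add_mul]
  map_smul' c v := by
    rw [RingHom.id_apply, Finset.smul_sum]
    refine Finset.sum_congr rfl fun js _ => ?_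
    rw [Pi.smul_apply, Submodule.coe_smul, smul_mul_assoc]

lemma fV_fin (V : Submodule ℚ ℂ) [Module.Finite ℚ V] : Module.Finite ℚ (LinearMap.range (fV q δ d V)) := inferInstance

lemma fV_rank (V : Submodule ℚ ℂ) [Module.Finite ℚ V] {D : ℕ} (hV : Module.finrank ℚ V ≤ D) :
    Module.finrank ℚ (LinearMap.range (fV q δ d V)) ≤
      Fintype.card (Jx (Σ i, Fin (n i)) d × Jx (Σ i, Option (Fin (r i))) δ) * D := by
  refine (LinearMap.finrank_range_le _).trans ?_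
  rw [Module.finrank_pi_fintype, Finset.sum_const, Finset.card_univ, smul_eq_mul]
  exact Nat.mul_le_mul_left _ hV

lemma sub_deg {e : ℕ} (hde : d * e ≤ δ) (hq : ∀ i j, (q i j).totalDegree ≤ e) {A : Type} [CommRing A] (φ : A →+* ℂ)
    {F : MvPolynomial (Σ i, Fin (n i)) A} (h : F.totalDegree ≤ d) :
    (MvPolynomial.eval₂ (MvPolynomial.C.comp φ) (pf q) F).totalDegree ≤ δ := by
  rw [sub_eq q φ h]
  refine (MvPolynomial.totalDegree_finsetSum _ _).trans (Finset.sup_le fun j _ => ?_)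
  refine (MvPolynomial.totalDegree_mul _ _).trans ?_
  rw [MvPolynomial.totalDegree_C, zero_add]
  exact (Z_deg q hq j).trans hde

lemma sub_mem {e : ℕ} (hde : d * e ≤ δ) (hq : ∀ i j, (q i j).totalDegree ≤ e) {A : Type} [CommRing A] (φ : A →+* ℂ)
    {V : Submodule ℚ ℂ} {F : MvPolynomial (Σ i, Fin (n i)) A} (h : F.totalDegree ≤ d) (hF : ∀ s, φ (F.coeff s) ∈ V)
    (s : Ex r) : (MvPolynomial.eval₂ (MvPolynomial.C.comp φ) (pf q) F).coeff s ∈ LinearMap.range (fV q δ d V) := by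
  classical
  rw [sub_eq q φ h, MvPolynomial.coeff_sum]
  by_cases hs : (s.sum fun _ e => e) ≤ δ
  · obtain ⟨s', rfl⟩ := ex_surj hs
    refine ⟨fun js => if js.2 = s' then ⟨φ (F.coeff (ex js.1)), hF _⟩ else 0, ?_⟩
    show ∑ js : Jx (Σ i, Fin (n i)) d × Jx (Σ i, Option (Fin (r i))) δ, _ = _
    rw [Fintype.sum_prod_type]
    refine Finset.sum_congr rfl fun j _ => ?_
    rw [Finset.sum_eq_single s', MvPolynomial.coeff_C_mul]
    · simp only [if_pos]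
    · intro s'' _ hne
      simp only [if_neg hne, Submodule.coe_zero, zero_mul]
    · intro h1
      exact absurd (Finset.mem_univ _) h1
  · have h1 : ∀ j ∈ (Finset.univ : Finset (Jx (Σ i, Fin (n i)) d)),
        (MvPolynomial.C (φ (F.coeff (ex j))) * Z q j).coeff s = 0 := by
      intro j _
      rw [MvPolynomial.coeff_C_mul]
      have h2 : (Z q j).coeff s = 0 := by
        by_contra h3
        exact hs ((MvPolynomial.le_totalDegree (MvPolynomial.mem_support_iff.2 h3)).trans ((Z_deg q hq j).trans hde))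
      rw [h2, mul_zero]
    rw [Finset.sum_eq_zero h1]
    exact Submodule.zero_mem _

/-- the values of the period functions -/
noncomputable def pv (h : ∀ i, Fin (r i) → ℚ⟦X⟧) (s : Fin k → ℝ) (v : Σ i, Fin (n i)) : ℂ :=
  MvPolynomial.aeval (vp h s) (pf q v)

/-- the polynomial `R` with polynomial coefficients gives a functional relation -/
def Fr (h : ∀ i, Fin (r i) → ℚ⟦X⟧) {𝕜 : Type} [Field 𝕜] (φ : 𝕜 →+* ℂ)
    (R : MvPolynomial (Σ i, Fin (n i)) (MvPolynomial (Fin k) 𝕜)) : Prop :=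
  ∃ τ : ℝ, ∀ s : Fin k → ℝ, (∀ i, τ < s i) →
    MvPolynomial.eval₂ (MvPolynomial.eval₂Hom φ fun i => 1 / (s i : ℂ)) (pv q h s) R = 0

lemma eval_sub (h : ∀ i, Fin (r i) → ℚ⟦X⟧) {A : Type} [CommRing A] (φ : A →+* ℂ) (F : MvPolynomial (Σ i, Fin (n i)) A)
    (s : Fin k → ℝ) : MvPolynomial.aeval (vp h s) (MvPolynomial.eval₂ (MvPolynomial.C.comp φ) (pf q) F) =
      MvPolynomial.eval₂ φ (pv q h s) F := by
  rw [← AlgHom.coe_toRingHom, MvPolynomial.hom_eval₂]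
  congr 1
  ext x
  simp

end

section
variable {k d e : ℕ} {r n : Fin k → ℕ} {h : ∀ i, Fin (r i) → ℚ⟦X⟧}

/-- the counting theorem -/
theorem relG (D : ℕ) {B : ∀ i, Finset (Fin (d * e) → Option (Fin (r i)))} {a : Fin k → Polynomial ℤ}
    {M : ∀ i, (Fin (d * e) → Option (Fin (r i))) → B i → Polynomial ℤ} (ha : ∀ i, a i ≠ 0)
    (hM : ∀ i b, ps (a i) * yw (h i) b = ∑ β, ps (M i b β) * yw (h i) β.1)
    (hOne : ∀ i, One (XF (d * e) fun β : B i => yw (h i) β.1))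
    (hsz : ∀ i, ∃ C : ℝ, ∀ j m, |((coeff m (h i j) : ℚ) : ℝ)| ≤ C ^ (m + 1)) :
    ∃ c C : ℝ, 0 < c ∧ 0 ≤ C ∧ ∀ (q : ∀ i, Fin (n i) → MvPolynomial (Option (Fin (r i))) ℂ), (∀ i j, (q i j).totalDegree ≤ e) →
      ∀ (𝕜 : Type) [Field 𝕜] [CharZero 𝕜] (φ : 𝕜 →+* ℂ) (L : Type) [Fintype L] (w : L → ℂ)
        (g : Jx (Σ i, Fin (n i)) d → Ex r → L → 𝕜), (∀ j s, (Z q j).coeff s = ∑ l, w l * φ (g j s l)) →
        (∀ c : L → 𝕜, ∑ l, w l * φ (c l) = 0 → c = 0) →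
      ∀ (V : Submodule ℚ ℂ) [Module.Finite ℚ V], Module.finrank ℚ V ≤ D →
      ∀ (x : Fin k → ℕ) (N : ℕ), 1 ≤ N → ∀ S : Finset (Fin k → ℕ),
      (∀ t ∈ S, (∀ i, x i < t i ∧ t i ≤ x i + N) ∧ ∃ F : MvPolynomial (Σ i, Fin (n i)) 𝕜, F.totalDegree ≤ d ∧
        (∀ s, φ (F.coeff s) ∈ V) ∧ MvPolynomial.eval₂ φ (pv q h fun i => (t i : ℝ)) F = 0 ∧
        ¬ ∃ R : MvPolynomial (Σ i, Fin (n i)) (MvPolynomial (Fin k) 𝕜), R.totalDegree ≤ d ∧ Fr q h φ R ∧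
          MvPolynomial.map (MvPolynomial.eval fun i => 1 / (t i : 𝕜)) R = F) →
      (S.card : ℝ) ≤ C * (N : ℝ) ^ (k - 1) * ∑ i, (1 + N / ((x i : ℝ) + N) ^ c) := by
  classical
  choose C₁ hC₁ using hsz
  set C₀ : Fin k → ℝ := fun i => |C₁ i| with hC₀d
  have hC₀ : ∀ i, 0 ≤ C₀ i := fun i => abs_nonneg _
  have hh : ∀ i j m, |((coeff m (h i j) : ℚ) : ℝ)| ≤ C₀ i ^ (m + 1) := fun i j m => by
    refine (hC₁ i j m).trans ?_
    rw [hC₀d, ← abs_pow]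
    exact le_abs_self _
  obtain ⟨c, C, hc, hC, hgood⟩ := good (D := Fintype.card (Jx (Σ i, Fin (n i)) d × Jx (Σ i, Option (Fin (r i))) (d * e)) * D)
    hM hOne hC₀ hh
  choose c₁ hc₁ using fun i => no_roots (ha i)
  obtain ⟨w₀, hw₀⟩ : ∃ w : ℕ, ∀ i, C₀ i ≤ w ∧ c₁ i ≤ w := by
    choose m hm using fun i => exists_nat_ge (C₀ i)
    refine ⟨∑ i, (m i + c₁ i), fun i => ⟨?_, ?_⟩⟩
    · have h1 : m i + c₁ i ≤ ∑ i, (m i + c₁ i) :=
        Finset.single_le_sum (f := fun i => m i + c₁ i) (fun _ _ => Nat.zero_le _) (Finset.mem_univ i)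
      have h2 : ((m i : ℕ) : ℝ) ≤ ((∑ i, (m i + c₁ i) : ℕ) : ℝ) := by exact_mod_cast (by omega)
      exact (hm i).trans h2
    · have h1 : m i + c₁ i ≤ ∑ i, (m i + c₁ i) :=
        Finset.single_le_sum (f := fun i => m i + c₁ i) (fun _ _ => Nat.zero_le _) (Finset.mem_univ i)
      omega
  obtain ⟨d₀, hd₀⟩ : ∃ d₀ : ℕ, ∀ i b β, (M i b β).natDegree ≤ d₀ := by
    refine ⟨∑ i, ∑ b, ∑ β, (M i b β).natDegree, fun i b β => ?_⟩
    refine le_trans ?_ (Finset.single_le_sum (f := fun i => ∑ b, ∑ β, (M i b β).natDegree) (fun _ _ => Nat.zero_le _)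
      (Finset.mem_univ i))
    refine le_trans ?_ (Finset.single_le_sum (f := fun b => ∑ β, (M i b β).natDegree) (fun _ _ => Nat.zero_le _)
      (Finset.mem_univ b))
    exact Finset.single_le_sum (f := fun β => (M i b β).natDegree) (fun _ _ => Nat.zero_le _) (Finset.mem_univ β)
  set dΔ : ℕ := Fintype.card (Jx (Σ i, Fin (n i)) d) * (k * d₀) with hdΔ
  refine ⟨c, C + (w₀ + 1) + dΔ, hc, by positivity, ?_⟩
  intro q hq 𝕜 _ _ φ L _ w g hg hw V _ hV x N hN S hS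
  obtain ⟨Δ, hΔ, hΔd, hlift⟩ := lift (mat M q g) (d := k * d₀) (fun pl j => mat_deg M q hd₀ pl j)
  set y : (Fin k → ℕ) → Fin k → 𝕜 := fun t i => 1 / (t i : 𝕜) with hy
  set S₁ := S.filter fun t => ∃ i, t i ≤ w₀ with hS₁
  set S₂ := S.filter fun t => MvPolynomial.eval (y t) Δ = 0 with hS₂
  set S₃ := S.filter fun t => (¬ ∃ i, t i ≤ w₀) ∧ MvPolynomial.eval (y t) Δ ≠ 0 with hS₃
  have hcov : S ⊆ S₁ ∪ (S₂ ∪ S₃) := by
    intro t ht
    by_cases h1 : ∃ i, t i ≤ w₀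
    · exact Finset.mem_union_left _ (Finset.mem_filter.2 ⟨ht, h1⟩)
    · by_cases h2 : MvPolynomial.eval (y t) Δ = 0
      · exact Finset.mem_union_right _ (Finset.mem_union_left _ (Finset.mem_filter.2 ⟨ht, h2⟩))
      · exact Finset.mem_union_right _ (Finset.mem_union_right _ (Finset.mem_filter.2 ⟨ht, h1, h2⟩))
  have hcard : S.card ≤ S₁.card + (S₂.card + S₃.card) :=
    (Finset.card_le_card hcov).trans ((Finset.card_union_le _ _).trans (Nat.add_le_add_left (Finset.card_union_le _ _) _))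
  have hb₁ : S₁.card ≤ k * (w₀ + 1) * N ^ (k - 1) := small w₀ N x S₁ fun t ht =>
    ⟨(hS t (Finset.mem_filter.1 ht).1).1, (Finset.mem_filter.1 ht).2⟩
  have hb₂ : S₂.card ≤ k * dΔ * N ^ (k - 1) := zeros_box hΔ hΔd x N hN S₂ fun t ht =>
    ⟨(hS t (Finset.mem_filter.1 ht).1).1, (Finset.mem_filter.1 ht).2⟩
  have hfin := fV_fin (δ := d * e) (d := d) q V
  have hb₃ : (S₃.card : ℝ) ≤ C * (N : ℝ) ^ (k - 1) * ∑ i, (1 + N / ((x i : ℝ) + N) ^ c) := by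
    refine hgood (LinearMap.range (fV q (d * e) d V)) (fV_rank q V hV) x N hN S₃ fun t ht => ?_
    obtain ⟨htS, hbig, hΔt⟩ := Finset.mem_filter.1 ht
    obtain ⟨hbox, F, hFd, hFV, hF0, hFR⟩ := hS t htS
    push Not at hbig
    refine ⟨hbox, fun i => lt_of_le_of_lt (hw₀ i).1 (by exact_mod_cast hbig i),
      MvPolynomial.eval₂ (MvPolynomial.C.comp φ) (pf q) F, sub_deg q le_rfl hq φ hFd, sub_mem q le_rfl hq φ hFd hFV, ?_, ?_⟩
    · rw [eval_sub]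
      exact hF0
    · by_contra hno
      push Not at hno
      have hyt : (fun i => φ (y t i)) = fun i => 1 / (t i : ℂ) := by
        funext i
        rw [hy]
        simp
      obtain ⟨R, hRd, hRF, hRs⟩ := lift_rel M q a (δ := d * e) le_rfl hq hg hw hM hC₀ hh (τ := (w₀ : ℝ))
        (fun i => (hw₀ i).1) (fun i s hs => hc₁ i s (by
          have h1 : ((c₁ i : ℕ) : ℝ) ≤ w₀ := by exact_mod_cast (hw₀ i).2
          exact lt_of_le_of_lt h1 hs)) (y := y t) (hlift (y t) hΔt) F hFd (by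
          rw [hyt]
          exact hno)
      exact hFR ⟨R, hRd, ⟨(w₀ : ℝ), hRs⟩, hRF⟩
  have hN1 : (1 : ℝ) ≤ N := by exact_mod_cast hN
  have hk : (k : ℝ) ≤ ∑ i, (1 + (N : ℝ) / ((x i : ℝ) + N) ^ c) := by
    have h1 : ∑ _i : Fin k, (1 : ℝ) ≤ ∑ i, (1 + (N : ℝ) / ((x i : ℝ) + N) ^ c) := by
      refine Finset.sum_le_sum fun i _ => ?_
      have : 0 ≤ (N : ℝ) / ((x i : ℝ) + N) ^ c := by positivity
      linarith
    rw [Finset.sum_const, Finset.card_univ, Fintype.card_fin, nsmul_eq_mul, mul_one] at h1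
    exact h1
  have h1 : (S.card : ℝ) ≤ k * (w₀ + 1) * (N : ℝ) ^ (k - 1) + (k * dΔ * (N : ℝ) ^ (k - 1) +
      C * (N : ℝ) ^ (k - 1) * ∑ i, (1 + N / ((x i : ℝ) + N) ^ c)) := by
    have e1 : (S.card : ℝ) ≤ S₁.card + (S₂.card + S₃.card) := by exact_mod_cast hcard
    have e2 : (S₁.card : ℝ) ≤ k * (w₀ + 1) * (N : ℝ) ^ (k - 1) := by exact_mod_cast hb₁
    have e3 : (S₂.card : ℝ) ≤ k * dΔ * (N : ℝ) ^ (k - 1) := by exact_mod_cast hb₂
    linarith
  refine h1.trans ?_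
  have hpow : (0 : ℝ) ≤ (N : ℝ) ^ (k - 1) := by positivity
  have e4 : (k : ℝ) * (w₀ + 1) * (N : ℝ) ^ (k - 1) ≤ (w₀ + 1) * (N : ℝ) ^ (k - 1) * ∑ i, (1 + (N : ℝ) / ((x i : ℝ) + N) ^ c) := by
    have : (k : ℝ) * (w₀ + 1) * (N : ℝ) ^ (k - 1) = (w₀ + 1) * (N : ℝ) ^ (k - 1) * k := by ring
    rw [this]
    exact mul_le_mul_of_nonneg_left hk (by positivity)
  have e5 : (k : ℝ) * dΔ * (N : ℝ) ^ (k - 1) ≤ dΔ * (N : ℝ) ^ (k - 1) * ∑ i, (1 + (N : ℝ) / ((x i : ℝ) + N) ^ c) := by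
    have : (k : ℝ) * dΔ * (N : ℝ) ^ (k - 1) = dΔ * (N : ℝ) ^ (k - 1) * k := by ring
    rw [this]
    exact mul_le_mul_of_nonneg_left hk (by positivity)
  calc k * (w₀ + 1) * (N : ℝ) ^ (k - 1) + (k * dΔ * (N : ℝ) ^ (k - 1) +
      C * (N : ℝ) ^ (k - 1) * ∑ i, (1 + (N : ℝ) / ((x i : ℝ) + N) ^ c))
      ≤ (w₀ + 1) * (N : ℝ) ^ (k - 1) * ∑ i, (1 + (N : ℝ) / ((x i : ℝ) + N) ^ c) +
        (dΔ * (N : ℝ) ^ (k - 1) * ∑ i, (1 + (N : ℝ) / ((x i : ℝ) + N) ^ c) +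
        C * (N : ℝ) ^ (k - 1) * ∑ i, (1 + (N : ℝ) / ((x i : ℝ) + N) ^ c)) := by linarith
    _ = _ := by ring

end

end Pool.Agent.Y120.R
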