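import Pool.Agent.Y120.R.Good

/-!
# Relations between period functions: lifting to functional relations
-/

set_option autoImplicit false

open PowerSeries Pool.Agent.Y113 Pool.Agent.Y120.GF Pool.Agent.Y120.GH

namespace Pool.Agent.Y120.R

section
variable {k δ : ℕ} {r : Fin k → ℕ} {B : ∀ i, Finset (Fin δ → Option (Fin (r i)))}
  (M : ∀ i, (Fin δ → Option (Fin (r i))) → B i → Polynomial ℤ)

lemma cc_eq {P : MvPolynomial (Σ i, Option (Fin (r i))) ℂ} {T : Finset (Ex r)} (hT : P.support ⊆ T)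
    (p : ∀ i, B i × Fin (δ + 1)) : cc M P p = ∑ s ∈ T, MvPolynomial.C (P.coeff s) * mp M ℂ s p := by
  unfold cc
  refine Finset.sum_subset hT fun s _ hs => ?_
  rw [MvPolynomial.notMem_support_iff.1 hs, map_zero, zero_mul]

lemma cc_lin {ι : Type} (S : Finset ι) (c : ι → ℂ) (Q : ι → MvPolynomial (Σ i, Option (Fin (r i))) ℂ)
    (p : ∀ i, B i × Fin (δ + 1)) :
    cc M (∑ j ∈ S, MvPolynomial.C (c j) * Q j) p = ∑ j ∈ S, MvPolynomial.C (c j) * cc M (Q j) p := by
  classical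
  set T : Finset (Ex r) := (∑ j ∈ S, MvPolynomial.C (c j) * Q j).support ∪ S.biUnion fun j => (Q j).support with hT
  rw [cc_eq M (T := T) Finset.subset_union_left]
  have h1 : ∀ j ∈ S, cc M (Q j) p = ∑ s ∈ T, MvPolynomial.C ((Q j).coeff s) * mp M ℂ s p := fun j hj =>
    cc_eq M (T := T) (fun s hs => Finset.mem_union_right _ (Finset.mem_biUnion.2 ⟨j, hj, hs⟩)) p
  have h2 : ∑ j ∈ S, MvPolynomial.C (c j) * cc M (Q j) p =
      ∑ j ∈ S, ∑ s ∈ T, MvPolynomial.C (c j) * (MvPolynomial.C ((Q j).coeff s) * mp M ℂ s p) :=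
    Finset.sum_congr rfl fun j hj => by rw [h1 j hj, Finset.mul_sum]
  rw [h2, Finset.sum_comm]
  refine Finset.sum_congr rfl fun s _ => ?_
  rw [MvPolynomial.coeff_sum, map_sum, Finset.sum_mul]
  refine Finset.sum_congr rfl fun j _ => ?_
  rw [MvPolynomial.coeff_C_mul, map_mul, mul_assoc]

end

/-- exponents of degree `≤ d` -/
abbrev Jx (n : Type) [Fintype n] (d : ℕ) : Type := {μ : n → Fin (d + 1) // ∑ v, (μ v : ℕ) ≤ d}

/-- the exponent as a finitely supported function -/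
noncomputable def ex {n : Type} [Fintype n] {d : ℕ} (j : Jx n d) : n →₀ ℕ := Finsupp.equivFunOnFinite.symm fun v => (j.1 v : ℕ)

lemma ex_apply {n : Type} [Fintype n] {d : ℕ} (j : Jx n d) (v : n) : ex j v = (j.1 v : ℕ) := rfl

lemma ex_inj {n : Type} [Fintype n] {d : ℕ} : Function.Injective (ex : Jx n d → n →₀ ℕ) := by
  intro j j' h
  apply Subtype.ext
  funext v
  exact Fin.ext (congrFun (congrArg DFunLike.coe h) v)

lemma ex_surj {n : Type} [Fintype n] {d : ℕ} {s : n →₀ ℕ} (h : (s.sum fun _ e => e) ≤ d) : ∃ j : Jx n d, ex j = s := by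
  classical
  rw [Finsupp.sum_fintype _ _ (fun _ => rfl)] at h
  refine ⟨⟨fun v => ⟨s v, Nat.lt_succ_of_le ((Finset.single_le_sum (f := fun v => s v) (fun _ _ => Nat.zero_le _)
    (Finset.mem_univ v)).trans h)⟩, h⟩, ?_⟩
  ext v
  rfl

lemma ex_sum {n : Type} [Fintype n] {d : ℕ} (j : Jx n d) : ((ex j).sum fun _ e => e) ≤ d := by
  rw [Finsupp.sum_fintype _ _ (fun _ => rfl)]
  exact j.2

lemma eq_sum_ex {n : Type} [Fintype n] [DecidableEq n] {d : ℕ} {A : Type} [CommRing A] {F : MvPolynomial n A} (h : F.totalDegree ≤ d) :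
    F = ∑ j : Jx n d, MvPolynomial.monomial (ex j) (F.coeff (ex j)) := by
  classical
  ext s
  rw [MvPolynomial.coeff_sum]
  by_cases hs : (s.sum fun _ e => e) ≤ d
  · obtain ⟨j, rfl⟩ := ex_surj hs
    rw [Finset.sum_eq_single j]
    · rw [MvPolynomial.coeff_monomial, if_pos rfl]
    · intro j' _ hne
      rw [MvPolynomial.coeff_monomial, if_neg]
      intro h1
      exact hne (ex_inj h1)
    · intro h1
      exact absurd (Finset.mem_univ _) h1
  · have h0 : F.coeff s = 0 := by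
      by_contra h1
      exact hs ((MvPolynomial.le_totalDegree (MvPolynomial.mem_support_iff.2 h1)).trans h)
    rw [h0]
    symm
    refine Finset.sum_eq_zero fun j _ => ?_
    rw [MvPolynomial.coeff_monomial, if_neg]
    rintro rfl
    exact hs (ex_sum j)

section
variable {k : ℕ} {r n : Fin k → ℕ} (q : ∀ i, Fin (n i) → MvPolynomial (Option (Fin (r i))) ℂ)

/-- the period functions as polynomials in all variables -/
noncomputable def pf (v : Σ i, Fin (n i)) : MvPolynomial (Σ i, Option (Fin (r i))) ℂ :=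
  MvPolynomial.rename (fun o => ⟨v.1, o⟩) (q v.1 v.2)

/-- the monomials in the period functions -/
noncomputable def Z {d : ℕ} (j : Jx (Σ i, Fin (n i)) d) : MvPolynomial (Σ i, Option (Fin (r i))) ℂ :=
  ∏ v, pf q v ^ (j.1 v : ℕ)

lemma Z_deg {d e : ℕ} (hq : ∀ i j, (q i j).totalDegree ≤ e) (j : Jx (Σ i, Fin (n i)) d) : (Z q j).totalDegree ≤ d * e := by
  unfold Z
  refine (MvPolynomial.totalDegree_finsetProd _ _).trans ?_
  have h1 : ∀ v ∈ Finset.univ, (pf q v ^ (j.1 v : ℕ)).totalDegree ≤ (j.1 v : ℕ) * e := by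
    intro v _
    refine (MvPolynomial.totalDegree_pow _ _).trans (Nat.mul_le_mul_left _ ?_)
    exact (MvPolynomial.totalDegree_rename_le _ _).trans (hq _ _)
  refine (Finset.sum_le_sum h1).trans ?_
  rw [← Finset.sum_mul]
  exact Nat.mul_le_mul_right _ j.2

/-- substitution of the period functions -/
lemma sub_eq {d : ℕ} {A : Type} [CommRing A] (φ : A →+* ℂ) {F : MvPolynomial (Σ i, Fin (n i)) A} (h : F.totalDegree ≤ d) :
    MvPolynomial.eval₂ (MvPolynomial.C.comp φ) (pf q) F =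
      ∑ j : Jx (Σ i, Fin (n i)) d, MvPolynomial.C (φ (F.coeff (ex j))) * Z q j := by
  conv_lhs => rw [eq_sum_ex h]
  rw [MvPolynomial.eval₂_sum]
  refine Finset.sum_congr rfl fun j _ => ?_
  rw [MvPolynomial.eval₂_monomial, Finsupp.prod_fintype _ _ (fun _ => pow_zero _)]
  rfl

end

section
variable {k δ : ℕ} {r n : Fin k → ℕ} {B : ∀ i, Finset (Fin δ → Option (Fin (r i)))}
  (M : ∀ i, (Fin δ → Option (Fin (r i))) → B i → Polynomial ℤ)
  (q : ∀ i, Fin (n i) → MvPolynomial (Option (Fin (r i))) ℂ) {d : ℕ} {𝕜 : Type} [Field 𝕜] {φ : 𝕜 →+* ℂ} {L : Type} [Fintype L]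
  {w : L → ℂ} {g : Jx (Σ i, Fin (n i)) d → Ex r → L → 𝕜}

/-- the matrix of the coefficients -/
noncomputable def mat (g : Jx (Σ i, Fin (n i)) d → Ex r → L → 𝕜) : Matrix ((∀ i, B i × Fin (δ + 1)) × L)
    (Jx (Σ i, Fin (n i)) d) (MvPolynomial (Fin k) 𝕜) :=
  fun pl j => ∑ s ∈ (Z q j).support, MvPolynomial.C (g j s pl.2) * mp M 𝕜 s pl.1

omit [Fintype L] in
lemma mat_deg {d₀ : ℕ} (hd : ∀ i b β, (M i b β).natDegree ≤ d₀) (pl) (j) : (mat M q g pl j).totalDegree ≤ k * d₀ := by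
  unfold mat
  refine (MvPolynomial.totalDegree_finsetSum _ _).trans (Finset.sup_le fun s _ => ?_)
  refine (MvPolynomial.totalDegree_mul _ _).trans ?_
  rw [MvPolynomial.totalDegree_C, zero_add]
  exact mp_deg M hd 𝕜 s _

lemma cc_Z (hg : ∀ j s, (Z q j).coeff s = ∑ l, w l * φ (g j s l)) (j) (p : ∀ i, B i × Fin (δ + 1)) :
    cc M (Z q j) p = ∑ l, MvPolynomial.C (w l) * MvPolynomial.map φ (mat M q g (p, l) j) := by
  unfold cc mat
  simp only [map_sum, map_mul, MvPolynomial.map_C, map_mp, Finset.mul_sum]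
  rw [Finset.sum_comm]
  refine Finset.sum_congr rfl fun s _ => ?_
  rw [hg, map_sum, Finset.sum_mul]
  refine Finset.sum_congr rfl fun l _ => ?_
  rw [map_mul, mul_assoc]

/-- A relation with trivial expansion is the specialisation of a functional relation. -/
theorem lift_rel (a : Fin k → Polynomial ℤ) {e : ℕ} (hde : d * e ≤ δ) (hq : ∀ i j, (q i j).totalDegree ≤ e)
    (hg : ∀ j s, (Z q j).coeff s = ∑ l, w l * φ (g j s l)) (hw : ∀ c : L → 𝕜, ∑ l, w l * φ (c l) = 0 → c = 0)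
    {h : ∀ i, Fin (r i) → ℚ⟦X⟧} (hM : ∀ i b, ps (a i) * yw (h i) b = ∑ β, ps (M i b β) * yw (h i) β.1)
    {C₀ : Fin k → ℝ} (hC₀ : ∀ i, 0 ≤ C₀ i) (hh : ∀ i j m, |((coeff m (h i j) : ℚ) : ℝ)| ≤ C₀ i ^ (m + 1))
    {τ : ℝ} (hτ : ∀ i, C₀ i ≤ τ) (hτa : ∀ i (s : ℝ), τ < s → Polynomial.aeval (1 / s) (a i) ≠ 0)
    {y : Fin k → 𝕜}
    (hy : ∀ v : Jx (Σ i, Fin (n i)) d → 𝕜, (∀ pl, ∑ j, MvPolynomial.eval y (mat M q g pl j) * v j = 0) →
      ∃ W : Jx (Σ i, Fin (n i)) d → MvPolynomial (Fin k) 𝕜, (∀ pl, ∑ j, mat M q g pl j * W j = 0) ∧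
        ∀ j, MvPolynomial.eval y (W j) = v j)
    (F : MvPolynomial (Σ i, Fin (n i)) 𝕜) (hF : F.totalDegree ≤ d)
    (h0 : ∀ p : (∀ i, B i × Fin (δ + 1)), MvPolynomial.eval (fun i => φ (y i))
      (cc M (MvPolynomial.eval₂ (MvPolynomial.C.comp φ) (pf q) F) p) = 0) :
    ∃ R : MvPolynomial (Σ i, Fin (n i)) (MvPolynomial (Fin k) 𝕜), R.totalDegree ≤ d ∧
      MvPolynomial.map (MvPolynomial.eval y) R = F ∧ ∀ s : Fin k → ℝ, (∀ i, τ < s i) →
      MvPolynomial.eval₂ (MvPolynomial.eval₂Hom φ fun i => 1 / (s i : ℂ)) (fun v => MvPolynomial.aeval (vp h s) (pf q v)) R = 0 := by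
  classical
  obtain ⟨W, hW, hWy⟩ := hy (fun j => F.coeff (ex j)) (fun pl => by
    obtain ⟨p, l⟩ := pl
    have h1 := h0 p
    rw [sub_eq q φ hF, cc_lin, map_sum] at h1
    have h2 : ∀ j : Jx (Σ i, Fin (n i)) d, MvPolynomial.eval (fun i => φ (y i))
        (MvPolynomial.C (φ (F.coeff (ex j))) * cc M (Z q j) p) =
        ∑ l, w l * φ (MvPolynomial.eval y (mat M q g (p, l) j) * F.coeff (ex j)) := by
      intro j
      rw [map_mul, MvPolynomial.eval_C, cc_Z M q hg, map_sum, Finset.mul_sum]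
      refine Finset.sum_congr rfl fun l _ => ?_
      rw [map_mul, MvPolynomial.eval_C, MvPolynomial.eval_map, map_mul]
      have h3 : MvPolynomial.eval₂ φ (fun i => φ (y i)) (mat M q g (p, l) j) = φ (MvPolynomial.eval y (mat M q g (p, l) j)) := by
        rw [← MvPolynomial.eval₂_id, MvPolynomial.eval₂_comp_left φ (RingHom.id 𝕜) y]
        rfl
      rw [h3]
      ring
    rw [Finset.sum_congr rfl fun j _ => h2 j, Finset.sum_comm] at h1
    have h4 : ∀ l, (∑ j : Jx (Σ i, Fin (n i)) d, w l * φ (MvPolynomial.eval y (mat M q g (p, l) j) * F.coeff (ex j))) =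
        w l * φ (∑ j, MvPolynomial.eval y (mat M q g (p, l) j) * F.coeff (ex j)) := by
      intro l
      rw [map_sum, Finset.mul_sum]
    rw [Finset.sum_congr rfl fun l _ => h4 l] at h1
    exact congrFun (hw _ h1) l)
  refine ⟨∑ j, MvPolynomial.monomial (ex j) (W j), ?_, ?_, ?_⟩
  · refine (MvPolynomial.totalDegree_finsetSum _ _).trans (Finset.sup_le fun j _ => ?_)
    exact (MvPolynomial.totalDegree_monomial_le _ _).trans (ex_sum j)
  · rw [map_sum]
    conv_rhs => rw [eq_sum_ex hF]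
    refine Finset.sum_congr rfl fun j _ => ?_
    rw [MvPolynomial.map_monomial, hWy]
  · intro s hs
    set ys : Fin k → ℂ := fun i => 1 / (s i : ℂ) with hys
    rw [MvPolynomial.eval₂_sum]
    have hA : (∏ i, Polynomial.aeval (ys i) (a i)) ≠ 0 := by
      refine Finset.prod_ne_zero_iff.2 fun i _ => ?_
      rw [hys, aeval_cast]
      exact_mod_cast hτa i (s i) (hs i)
    have hval : ∀ j : Jx (Σ i, Fin (n i)) d, MvPolynomial.eval₂ (MvPolynomial.eval₂Hom φ ys)
        (fun v => MvPolynomial.aeval (vp h s) (pf q v)) (MvPolynomial.monomial (ex j) (W j)) =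
        MvPolynomial.eval₂ φ ys (W j) * MvPolynomial.aeval (vp h s) (Z q j) := by
      intro j
      rw [MvPolynomial.eval₂_monomial, Finsupp.prod_fintype _ _ (fun _ => pow_zero _)]
      unfold Z
      rw [map_prod]
      congr 1
      refine Finset.prod_congr rfl fun v _ => ?_
      rw [map_pow]
      rfl
    rw [Finset.sum_congr rfl fun j _ => hval j]
    have hexp : ∀ j : Jx (Σ i, Fin (n i)) d, (∏ i, Polynomial.aeval (ys i) (a i)) * MvPolynomial.aeval (vp h s) (Z q j) =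
        ∑ p : (∀ i, B i × Fin (δ + 1)), (∑ l, w l * MvPolynomial.eval₂ φ ys (mat M q g (p, l) j)) * xf h s p := by
      intro j
      have h1 := expand_real a M hM hC₀ hh (s := s) (fun i => lt_of_le_of_lt (hτ i) (hs i)) (Z q j) ((Z_deg q hq j).trans hde)
      refine h1.trans (Finset.sum_congr rfl fun p _ => ?_)
      rw [cc_Z M q hg, map_sum]
      congr 1
      refine Finset.sum_congr rfl fun l _ => ?_
      rw [map_mul, MvPolynomial.eval_C, MvPolynomial.eval_map]
    have hmul : (∏ i, Polynomial.aeval (ys i) (a i)) *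
        (∑ j : Jx (Σ i, Fin (n i)) d, MvPolynomial.eval₂ φ ys (W j) * MvPolynomial.aeval (vp h s) (Z q j)) = 0 := by
      rw [Finset.mul_sum]
      have h1 : ∀ j : Jx (Σ i, Fin (n i)) d, (∏ i, Polynomial.aeval (ys i) (a i)) *
          (MvPolynomial.eval₂ φ ys (W j) * MvPolynomial.aeval (vp h s) (Z q j)) =
          ∑ p : (∀ i, B i × Fin (δ + 1)), ∑ l, w l * xf h s p *
            (MvPolynomial.eval₂ φ ys (mat M q g (p, l) j) * MvPolynomial.eval₂ φ ys (W j)) := by
        intro j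
        have h2 : (∏ i, Polynomial.aeval (ys i) (a i)) *
          (MvPolynomial.eval₂ φ ys (W j) * MvPolynomial.aeval (vp h s) (Z q j)) = MvPolynomial.eval₂ φ ys (W j) *
          ((∏ i, Polynomial.aeval (ys i) (a i)) * MvPolynomial.aeval (vp h s) (Z q j)) := by ring
        rw [h2, hexp, Finset.mul_sum]
        refine Finset.sum_congr rfl fun p _ => ?_
        rw [Finset.sum_mul, Finset.mul_sum]
        refine Finset.sum_congr rfl fun l _ => ?_
        ring
      rw [Finset.sum_congr rfl fun j _ => h1 j, Finset.sum_comm]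
      refine Finset.sum_eq_zero fun p _ => ?_
      rw [Finset.sum_comm]
      refine Finset.sum_eq_zero fun l _ => ?_
      rw [← Finset.mul_sum]
      have h3 : ∑ j, MvPolynomial.eval₂ φ ys (mat M q g (p, l) j) * MvPolynomial.eval₂ φ ys (W j) =
          MvPolynomial.eval₂ φ ys (∑ j, mat M q g (p, l) j * W j) := by
        rw [MvPolynomial.eval₂_sum]
        refine Finset.sum_congr rfl fun j _ => ?_
        rw [MvPolynomial.eval₂_mul]
      rw [h3, hW, MvPolynomial.eval₂_zero, mul_zero]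
    exact (mul_eq_zero.1 hmul).resolve_left hA

end

end Pool.Agent.Y120.R
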