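import Pool.Agent.Y120.R.Gx

/-!
# Tensor products of period matrices
-/

set_option autoImplicit false

open PowerSeries Pool.Agent.Y113 Pool.Agent.Y120.GF Pool.Agent.Y120.GH Filter Topology

namespace Pool.Agent.Y120.R

section
variable {k : ℕ} {n : Fin k → ℕ} (m : Fin k → ℕ)

/-- the tensor product of tensor powers of matrices -/
def ten (Z : ∀ i, Matrix (Fin (n i)) (Fin (n i)) ℂ) :
    Matrix (∀ i, Fin (m i) → Fin (n i)) (∀ i, Fin (m i) → Fin (n i)) ℂ := fun J I => ∏ i, ∏ l, Z i (J i l) (I i l)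

lemma ten_mul (Z Z' : ∀ i, Matrix (Fin (n i)) (Fin (n i)) ℂ) : ten m (fun i => Z i * Z' i) = ten m Z * ten m Z' := by
  classical
  ext J I
  rw [Matrix.mul_apply]
  unfold ten
  simp only [Matrix.mul_apply]
  have h1 : ∀ i : Fin k, ∏ l : Fin (m i), ∑ c, Z i (J i l) c * Z' i c (I i l) =
      ∑ K : Fin (m i) → Fin (n i), ∏ l, (Z i (J i l) (K l) * Z' i (K l) (I i l)) := by
    intro i
    rw [Finset.prod_univ_sum, Fintype.piFinset_univ]
  rw [Finset.prod_congr rfl fun i _ => h1 i, Finset.prod_univ_sum, Fintype.piFinset_univ]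
  refine Finset.sum_congr rfl fun K _ => ?_
  simp only [Finset.prod_mul_distrib]

lemma ten_one : ten m (fun i => (1 : Matrix (Fin (n i)) (Fin (n i)) ℂ)) = 1 := by
  classical
  ext J I
  unfold ten
  rw [Matrix.one_apply]
  split_ifs with h
  · subst h
    exact Finset.prod_eq_one fun i _ => Finset.prod_eq_one fun l _ => Matrix.one_apply_eq _
  · obtain ⟨i, hi⟩ := Function.ne_iff.1 h
    obtain ⟨l, hl⟩ := Function.ne_iff.1 hi
    refine Finset.prod_eq_zero (Finset.mem_univ i) (Finset.prod_eq_zero (Finset.mem_univ l) ?_)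
    exact Matrix.one_apply_ne hl

lemma ten_inj {Z : ∀ i, Matrix (Fin (n i)) (Fin (n i)) ℂ} (h : ∀ i, (Z i).det ≠ 0) :
    Function.Injective (ten m Z).mulVec := by
  have h1 : ten m (fun i => (Z i)⁻¹) * ten m Z = 1 := by
    rw [← ten_mul, ← ten_one m]
    congr 1
    funext i
    exact Matrix.nonsing_inv_mul _ (isUnit_iff_ne_zero.2 (h i))
  intro a b hab
  have h2 := congrArg (ten m fun i => (Z i)⁻¹).mulVec hab
  rw [Matrix.mulVec_mulVec, Matrix.mulVec_mulVec, h1, Matrix.one_mulVec, Matrix.one_mulVec] at h2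
  exact h2

/-- the polynomial of a bilinear expression in the tensor product -/
noncomputable def Fa (a : (∀ i, Fin (m i) → Fin (n i)) → (∀ i, Fin (m i) → Fin (n i)) → ℂ) (c : ℂ) :
    MvPolynomial (Σ i, Fin (n i) × Fin (n i)) ℂ :=
  (∑ J, ∑ I, MvPolynomial.monomial (∑ i, ∑ l, Finsupp.single (⟨i, (J i l, I i l)⟩ : Σ i, Fin (n i) × Fin (n i)) 1) (a J I)) -
    MvPolynomial.monomial 0 c

lemma Fa_eval (a : (∀ i, Fin (m i) → Fin (n i)) → (∀ i, Fin (m i) → Fin (n i)) → ℂ) (c : ℂ)
    (Z : ∀ i, Matrix (Fin (n i)) (Fin (n i)) ℂ) :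
    MvPolynomial.eval (fun v : Σ i, Fin (n i) × Fin (n i) => Z v.1 v.2.1 v.2.2) (Fa m a c) =
      ∑ J, ∑ I, a J I * ten m Z J I - c := by
  classical
  unfold Fa
  rw [map_sub, map_sum]
  congr 1
  · refine Finset.sum_congr rfl fun J _ => ?_
    rw [map_sum]
    refine Finset.sum_congr rfl fun I _ => ?_
    rw [MvPolynomial.eval_monomial]
    congr 1
    rw [Finsupp.prod_fintype _ _ (fun _ => pow_zero _)]
    unfold ten
    have h1 : ∀ v : Σ i, Fin (n i) × Fin (n i), Z v.1 v.2.1 v.2.2 ^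
        ((∑ i, ∑ l, Finsupp.single (⟨i, (J i l, I i l)⟩ : Σ i, Fin (n i) × Fin (n i)) 1 : (Σ i, Fin (n i) × Fin (n i)) →₀ ℕ) v) =
        ∏ i, ∏ l : Fin (m i), Z v.1 v.2.1 v.2.2 ^
          (Finsupp.single (⟨i, (J i l, I i l)⟩ : Σ i, Fin (n i) × Fin (n i)) 1 : (Σ i, Fin (n i) × Fin (n i)) →₀ ℕ) v := by
      intro v
      rw [Finsupp.finsetSum_apply, ← Finset.prod_pow_eq_pow_sum]
      refine Finset.prod_congr rfl fun i _ => ?_
      rw [Finsupp.finsetSum_apply, ← Finset.prod_pow_eq_pow_sum]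
    rw [Finset.prod_congr rfl fun v _ => h1 v, Finset.prod_comm]
    refine Finset.prod_congr rfl fun i _ => ?_
    rw [Finset.prod_comm]
    refine Finset.prod_congr rfl fun l _ => ?_
    rw [Finset.prod_eq_single (⟨i, (J i l, I i l)⟩ : Σ i, Fin (n i) × Fin (n i))]
    · rw [Finsupp.single_eq_same, pow_one]
    · intro v _ hv
      rw [Finsupp.single_eq_of_ne hv, pow_zero]
    · intro h2
      exact absurd (Finset.mem_univ _) h2
  · rw [MvPolynomial.eval_monomial, Finsupp.prod_zero_index, mul_one]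

lemma Fa_deg (a : (∀ i, Fin (m i) → Fin (n i)) → (∀ i, Fin (m i) → Fin (n i)) → ℂ) (c : ℂ) :
    (Fa m a c).totalDegree ≤ ∑ i, m i := by
  classical
  unfold Fa
  refine (MvPolynomial.totalDegree_sub _ _).trans (max_le ?_ ?_)
  · refine (MvPolynomial.totalDegree_finsetSum _ _).trans (Finset.sup_le fun J _ => ?_)
    refine (MvPolynomial.totalDegree_finsetSum _ _).trans (Finset.sup_le fun I _ => ?_)
    refine (MvPolynomial.totalDegree_monomial_le _ _).trans ?_
    rw [Finsupp.sum_fintype _ _ (fun _ => rfl)]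
    have h1 : ∀ v : Σ i, Fin (n i) × Fin (n i),
        (∑ i, ∑ l, Finsupp.single (⟨i, (J i l, I i l)⟩ : Σ i, Fin (n i) × Fin (n i)) 1 : (Σ i, Fin (n i) × Fin (n i)) →₀ ℕ) v =
        ∑ i, ∑ l : Fin (m i), (Finsupp.single (⟨i, (J i l, I i l)⟩ : Σ i, Fin (n i) × Fin (n i)) 1 : (Σ i, Fin (n i) × Fin (n i)) →₀ ℕ) v := by
      intro v
      rw [Finsupp.finsetSum_apply]
      refine Finset.sum_congr rfl fun i _ => ?_
      rw [Finsupp.finsetSum_apply]
    show ∑ v : Σ i, Fin (n i) × Fin (n i),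
        (∑ i, ∑ l, Finsupp.single (⟨i, (J i l, I i l)⟩ : Σ i, Fin (n i) × Fin (n i)) 1 : (Σ i, Fin (n i) × Fin (n i)) →₀ ℕ) v ≤ ∑ i, m i
    rw [Finset.sum_congr rfl fun v _ => h1 v, Finset.sum_comm]
    refine Finset.sum_le_sum fun i _ => ?_
    rw [Finset.sum_comm]
    have h2 : ∀ l ∈ (Finset.univ : Finset (Fin (m i))), ∑ v : Σ i, Fin (n i) × Fin (n i),
        (Finsupp.single (⟨i, (J i l, I i l)⟩ : Σ i, Fin (n i) × Fin (n i)) 1 : (Σ i, Fin (n i) × Fin (n i)) →₀ ℕ) v = 1 := by
      intro l _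
      rw [Finset.sum_eq_single (⟨i, (J i l, I i l)⟩ : Σ i, Fin (n i) × Fin (n i))]
      · exact Finsupp.single_eq_same
      · intro v _ hv
        exact Finsupp.single_eq_of_ne hv
      · intro h3
        exact absurd (Finset.mem_univ _) h3
    rw [Finset.sum_congr rfl h2]
    simp
  · refine (MvPolynomial.totalDegree_monomial_le _ _).trans ?_
    simp

lemma Fa_mem {V : Submodule ℚ ℂ} {a : (∀ i, Fin (m i) → Fin (n i)) → (∀ i, Fin (m i) → Fin (n i)) → ℂ} {c : ℂ}
    (ha : ∀ J I, a J I ∈ V) (hc : c ∈ V) (s) : (Fa m a c).coeff s ∈ V := by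
  classical
  unfold Fa
  rw [MvPolynomial.coeff_sub]
  refine V.sub_mem ?_ ?_
  · rw [MvPolynomial.coeff_sum]
    refine V.sum_mem fun J _ => ?_
    rw [MvPolynomial.coeff_sum]
    refine V.sum_mem fun I _ => ?_
    rw [MvPolynomial.coeff_monomial]
    split_ifs
    · exact ha J I
    · exact V.zero_mem
  · rw [MvPolynomial.coeff_monomial]
    split_ifs
    · exact hc
    · exact V.zero_mem

end

section
variable {K : IntermediateField ℚ ℂ} {ι : Type} [Fintype ι]

/-- extension of scalars of a subspace of `K^ι` -/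
def ext (U : Submodule K (ι → K)) : Submodule ℂ (ι → ℂ) := Submodule.span ℂ ((fun (u : ι → K) I => (u I : ℂ)) '' (U : Set (ι → K)))

/-- a vector which is killed by all linear forms over `K` which kill `U` belongs to the extension of `U` -/
theorem mem_ext [DecidableEq ι] (U : Submodule K (ι → K)) (v : ι → ℂ)
    (h : ∀ l : ι → K, (∀ u ∈ U, ∑ J, l J * u J = 0) → ∑ J, (l J : ℂ) * v J = 0) : v ∈ ext U := by
  obtain ⟨U', hU'⟩ := Submodule.exists_isCompl U
  let ρ : (ι → K) →ₗ[K] (ι → K) := U.subtype.comp (Submodule.projectionOnto U U' hU')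
  have hρU : ∀ u ∈ U, ρ u = u := fun u hu => by
    show ((Submodule.projectionOnto U U' hU' u : U) : ι → K) = u
    rw [show u = ((⟨u, hu⟩ : U) : ι → K) from rfl, Submodule.projectionOnto_apply_left]
  have hρm : ∀ u, ρ u ∈ U := fun u => (Submodule.projectionOnto U U' hU' u).2
  let b : ι → (ι → K) := fun I => Pi.single I 1
  have hsum : ∀ u : ι → K, ρ u = ∑ I, u I • ρ (b I) := by
    intro u
    have h1 : u = ∑ I, u I • b I := by
      funext J
      rw [Finset.sum_apply, Finset.sum_eq_single J]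
      · simp [b]
      · intro I _ hI
        simp [b, Pi.single_eq_of_ne hI.symm]
      · intro h2
        exact absurd (Finset.mem_univ _) h2
    conv_lhs => rw [h1]
    rw [map_sum]
    exact Finset.sum_congr rfl fun I _ => by rw [map_smul]
  have hv : v = ∑ I, v I • fun J => ((ρ (b I) J : K) : ℂ) := by
    funext J
    have h1 := h (fun I => (if I = J then 1 else 0) - ρ (b I) J) (fun u hu => by
      have h2 := congrFun (hsum u) J
      rw [hρU u hu, Finset.sum_apply] at h2
      simp only [Pi.smul_apply, smul_eq_mul] at h2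
      simp only [sub_mul, ite_mul, one_mul, zero_mul]
      rw [Finset.sum_sub_distrib, Finset.sum_ite_eq' Finset.univ J, if_pos (Finset.mem_univ _), h2, sub_eq_zero]
      exact Finset.sum_congr rfl fun I _ => mul_comm _ _)
    rw [Finset.sum_apply]
    simp only [Pi.smul_apply, smul_eq_mul]
    have h3 : ∑ I, ((((if I = J then 1 else 0) - ρ (b I) J : K)) : ℂ) * v I = v J - ∑ I, v I * ((ρ (b I) J : K) : ℂ) := by
      have h4 : ∀ I, ((((if I = J then 1 else 0) - ρ (b I) J : K)) : ℂ) * v I =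
          (if I = J then v I else 0) - v I * ((ρ (b I) J : K) : ℂ) := by
        intro I
        split_ifs with hI
        · push_cast
          ring
        · push_cast
          ring
      rw [Finset.sum_congr rfl fun I _ => h4 I, Finset.sum_sub_distrib, Finset.sum_ite_eq' Finset.univ J,
        if_pos (Finset.mem_univ _)]
    rw [h3, sub_eq_zero] at h1
    exact h1
  rw [hv]
  refine Submodule.sum_mem _ fun I _ => Submodule.smul_mem _ _ (Submodule.subset_span ?_)
  exact ⟨ρ (b I), hρm _, rfl⟩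

/-- linear forms which kill `U` kill the extension -/
lemma ext_kill (U : Submodule K (ι → K)) {v : ι → ℂ} (hv : v ∈ ext U) (l : ι → K) (h : ∀ u ∈ U, ∑ J, l J * u J = 0) :
    ∑ J, (l J : ℂ) * v J = 0 := by
  unfold ext at hv
  induction hv using Submodule.span_induction with
  | mem x hx =>
    obtain ⟨u, hu, rfl⟩ := hx
    have h1 := congrArg (fun x : K => (x : ℂ)) (h u hu)
    beta_reduce at h1
    push_cast at h1
    exact h1
  | zero => simp
  | add x y _ _ hx hy =>
    simp only [Pi.add_apply, mul_add, Finset.sum_add_distrib]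
    rw [hx, hy, add_zero]
  | smul c x _ hx =>
    have h1 : ∑ J, (l J : ℂ) * (c • x) J = c * ∑ J, (l J : ℂ) * x J := by
      rw [Finset.mul_sum]
      refine Finset.sum_congr rfl fun J _ => ?_
      rw [Pi.smul_apply, smul_eq_mul]
      ring
    rw [h1, hx, mul_zero]

end

end Pool.Agent.Y120.R
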