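import Pool.Agent.Y120.R.Ten

/-!
# Sums of twisted tensor products of period matrices
-/

set_option autoImplicit false

open PowerSeries Pool.Agent.Y113 Pool.Agent.Y120.GF Pool.Agent.Y120.GH Filter Topology

namespace Pool.Agent.Y120.R

section
variable {k L : ℕ} {n : Fin k → ℕ} (m : Fin L → Fin k → ℕ)

/-- the direct sum of the twisted tensor products -/
def tens (ω : Fin L → ℂ) (Z : ∀ i, Matrix (Fin (n i)) (Fin (n i)) ℂ) :
    Matrix (Σ l, ∀ i, Fin (m l i) → Fin (n i)) (Σ l, ∀ i, Fin (m l i) → Fin (n i)) ℂ :=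
  Matrix.blockDiagonal' fun l => ω l • ten (m l) Z

lemma tens_mul (ω : Fin L → ℂ) (Z Z' : ∀ i, Matrix (Fin (n i)) (Fin (n i)) ℂ) :
    tens m ω (fun i => Z i * Z' i) = tens m ω Z * tens m (fun _ => 1) Z' := by
  classical
  unfold tens
  rw [← Matrix.blockDiagonal'_mul]
  congr 1
  funext l
  rw [ten_mul, one_smul, Matrix.smul_mul]

lemma tens_one : tens m (fun _ => 1) (fun i => (1 : Matrix (Fin (n i)) (Fin (n i)) ℂ)) = 1 := by
  classical
  unfold tens
  have h1 : (fun l => (1 : ℂ) • ten (m l) fun i => (1 : Matrix (Fin (n i)) (Fin (n i)) ℂ)) = 1 := by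
    funext l
    rw [ten_one, one_smul]
    rfl
  rw [h1, Matrix.blockDiagonal'_one]

lemma tens_smul (ω ω' : Fin L → ℂ) (Z : ∀ i, Matrix (Fin (n i)) (Fin (n i)) ℂ) :
    tens m ω' (fun i => (1 : Matrix (Fin (n i)) (Fin (n i)) ℂ)) * tens m ω Z = tens m (fun l => ω' l * ω l) Z := by
  classical
  unfold tens
  rw [← Matrix.blockDiagonal'_mul]
  congr 1
  funext l
  rw [ten_one, Matrix.smul_mul, Matrix.one_mul, smul_smul]

lemma tens_inj {ω : Fin L → ℂ} (hω : ∀ l, ω l ≠ 0) {Z : ∀ i, Matrix (Fin (n i)) (Fin (n i)) ℂ} (h : ∀ i, (Z i).det ≠ 0) :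
    Function.Injective (tens m ω Z).mulVec := by
  have h0 : tens m (fun l => (ω l)⁻¹) (fun i => (Z i)⁻¹) * tens m (fun _ => 1) Z = tens m (fun l => (ω l)⁻¹) fun _ => 1 := by
    rw [← tens_mul]
    congr 1
    funext i
    exact Matrix.nonsing_inv_mul _ (isUnit_iff_ne_zero.2 (h i))
  have h2 : tens m (fun _ => 1) (fun i => (Z i)⁻¹) * tens m ω Z = tens m ω fun _ => 1 := by
    classical
    unfold tens
    rw [← Matrix.blockDiagonal'_mul]
    congr 1
    funext l
    rw [one_smul, Matrix.mul_smul, ← ten_mul]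
    congr 2
    funext i
    exact Matrix.nonsing_inv_mul _ (isUnit_iff_ne_zero.2 (h i))
  have h3 : tens m (fun l => (ω l)⁻¹) (fun i => (1 : Matrix (Fin (n i)) (Fin (n i)) ℂ)) *
      (tens m (fun _ => 1) (fun i => (Z i)⁻¹) * tens m ω Z) = 1 := by
    rw [h2, tens_smul, ← tens_one]
    congr 1
    funext l
    exact inv_mul_cancel₀ (hω l)
  intro a b hab
  have h4 := congrArg (fun v => (tens m (fun l => (ω l)⁻¹) (fun i => (1 : Matrix (Fin (n i)) (Fin (n i)) ℂ)) *
      tens m (fun _ => 1) (fun i => (Z i)⁻¹)).mulVec v) hab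
  beta_reduce at h4
  rw [Matrix.mulVec_mulVec, Matrix.mulVec_mulVec, Matrix.mul_assoc, h3, Matrix.one_mulVec, Matrix.one_mulVec] at h4
  exact h4

/-- the polynomial of a bilinear expression in the sum of tensor products -/
noncomputable def Fb (ω : Fin L → ℂ) (a : (Σ l, ∀ i, Fin (m l i) → Fin (n i)) → (Σ l, ∀ i, Fin (m l i) → Fin (n i)) → ℂ)
    (c : ℂ) : MvPolynomial (Σ i, Fin (n i) × Fin (n i)) ℂ :=
  ∑ l, Fa (m l) (fun J I => ω l * a ⟨l, J⟩ ⟨l, I⟩) 0 - MvPolynomial.monomial 0 c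

lemma Fb_eval (ω : Fin L → ℂ) (a : (Σ l, ∀ i, Fin (m l i) → Fin (n i)) → (Σ l, ∀ i, Fin (m l i) → Fin (n i)) → ℂ)
    (c : ℂ) (Z : ∀ i, Matrix (Fin (n i)) (Fin (n i)) ℂ) :
    MvPolynomial.eval (fun v : Σ i, Fin (n i) × Fin (n i) => Z v.1 v.2.1 v.2.2) (Fb m ω a c) =
      ∑ J, ∑ I, a J I * tens m ω Z J I - c := by
  classical
  unfold Fb
  rw [map_sub, map_sum, MvPolynomial.eval_monomial, Finsupp.prod_zero_index, mul_one]
  congr 1
  rw [Fintype.sum_sigma]
  refine Finset.sum_congr rfl fun l _ => ?_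
  rw [Fa_eval, sub_zero]
  refine Finset.sum_congr rfl fun J _ => ?_
  rw [Fintype.sum_sigma, Finset.sum_eq_single l]
  · refine Finset.sum_congr rfl fun I _ => ?_
    unfold tens
    rw [Matrix.blockDiagonal'_apply_eq, Matrix.smul_apply, smul_eq_mul]
    ring
  · intro l' _ hl'
    refine Finset.sum_eq_zero fun I _ => ?_
    unfold tens
    rw [Matrix.blockDiagonal'_apply_ne _ _ _ hl'.symm, mul_zero]
  · intro h2
    exact absurd (Finset.mem_univ _) h2

lemma Fb_deg {d : ℕ} (hm : ∀ l, ∑ i, m l i ≤ d) (ω : Fin L → ℂ)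
    (a : (Σ l, ∀ i, Fin (m l i) → Fin (n i)) → (Σ l, ∀ i, Fin (m l i) → Fin (n i)) → ℂ) (c : ℂ) :
    (Fb m ω a c).totalDegree ≤ d := by
  classical
  unfold Fb
  refine (MvPolynomial.totalDegree_sub _ _).trans (max_le ?_ ?_)
  · refine (MvPolynomial.totalDegree_finsetSum _ _).trans (Finset.sup_le fun l _ => ?_)
    exact (Fa_deg _ _ _).trans (hm l)
  · refine (MvPolynomial.totalDegree_monomial_le _ _).trans ?_
    simp

lemma Fb_mem {V : Submodule ℚ ℂ} {ω : Fin L → ℂ}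
    {a : (Σ l, ∀ i, Fin (m l i) → Fin (n i)) → (Σ l, ∀ i, Fin (m l i) → Fin (n i)) → ℂ} {c : ℂ}
    (ha : ∀ l J I, ω l * a ⟨l, J⟩ ⟨l, I⟩ ∈ V) (hc : c ∈ V) (s) : (Fb m ω a c).coeff s ∈ V := by
  classical
  unfold Fb
  rw [MvPolynomial.coeff_sub]
  refine V.sub_mem ?_ ?_
  · rw [MvPolynomial.coeff_sum]
    exact V.sum_mem fun l _ => Fa_mem (m l) (fun J I => ha l J I) V.zero_mem s
  · rw [MvPolynomial.coeff_monomial]
    split_ifs
    · exact hc
    · exact V.zero_mem

end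

section
variable {L : ℕ}

/-- the map whose range is spanned by the coefficients -/
noncomputable def cmap (K : IntermediateField ℚ ℂ) (ω : Fin L → ℂ) : (Option (Fin L) → K) →ₗ[ℚ] ℂ where
  toFun f := (f none : ℂ) + ∑ l, ω l * (f (some l) : ℂ)
  map_add' f g := by
    simp only [Pi.add_apply]
    push_cast
    simp only [mul_add, Finset.sum_add_distrib]
    ring
  map_smul' c f := by
    simp only [Pi.smul_apply, RingHom.id_apply, Algebra.smul_def, mul_add, Finset.mul_sum]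
    push_cast
    congr 1
    refine Finset.sum_congr rfl fun l _ => ?_
    simp
    ring

/-- the space spanned by the coefficients -/
noncomputable def cV (K : IntermediateField ℚ ℂ) (ω : Fin L → ℂ) : Submodule ℚ ℂ := LinearMap.range (cmap K ω)

lemma cV_one {K : IntermediateField ℚ ℂ} {ω : Fin L → ℂ} (c : K) : (c : ℂ) ∈ cV K ω := by
  refine ⟨fun o => o.elim c fun _ => 0, ?_⟩
  show (c : ℂ) + ∑ l : Fin L, ω l * ((0 : K) : ℂ) = c
  simp

lemma cV_om {K : IntermediateField ℚ ℂ} {ω : Fin L → ℂ} (l : Fin L) (c : K) : ω l * (c : ℂ) ∈ cV K ω := by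
  classical
  refine ⟨fun o => o.elim 0 fun l' => if l' = l then c else 0, ?_⟩
  show ((0 : K) : ℂ) + ∑ l' : Fin L, ω l' * ((if l' = l then c else 0 : K) : ℂ) = ω l * c
  rw [Finset.sum_eq_single l]
  · simp
  · intro b _ hb
    simp [hb]
  · intro h
    exact absurd (Finset.mem_univ _) h

instance cV_fin {K : IntermediateField ℚ ℂ} [FiniteDimensional ℚ K] {ω : Fin L → ℂ} : Module.Finite ℚ (cV K ω) := by
  unfold cV
  infer_instance

lemma cV_rank {K : IntermediateField ℚ ℂ} [FiniteDimensional ℚ K] {ω : Fin L → ℂ} {D : ℕ} (h : Module.finrank ℚ K ≤ D) :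
    Module.finrank ℚ (cV K ω) ≤ (L + 1) * D := by
  unfold cV
  refine (LinearMap.finrank_range_le _).trans ?_
  rw [Module.finrank_pi_fintype]
  simp only [Finset.sum_const, Finset.card_univ, Fintype.card_option, Fintype.card_fin, smul_eq_mul]
  exact Nat.mul_le_mul_left _ h

end

end Pool.Agent.Y120.R
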